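import Mathlib

set_option autoImplicit false

/-!
# Kernels for the moment recursions of random sequential adsorption
-/

namespace Pool.Agent.Q216.RSA

open Finset
open MeasureTheory (volume)

/-- `Λ(u) = ∑_{k = 1}^{r - 1} u ^ k / k`. -/
noncomputable def Lam (r : ℕ) (u : ℝ) : ℝ := ∑ k ∈ Finset.Icc 1 (r - 1), u ^ k / (k : ℝ)

/-- `∑_{j < r - 1} u ^ j`, the derivative of `Λ` -/
noncomputable def dLam (r : ℕ) (u : ℝ) : ℝ := ∑ j ∈ Finset.range (r - 1), u ^ j

theorem Lam_eq (r : ℕ) (u : ℝ) :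
    Lam r u = ∑ j ∈ Finset.range (r - 1), u ^ (j + 1) / ((j : ℝ) + 1) := by
  unfold Lam
  rw [← Finset.Ico_succ_right_eq_Icc, Finset.sum_Ico_eq_sum_range]
  refine Finset.sum_congr rfl fun j _ => ?_
  rw [add_comm 1 j]
  push_cast
  rfl

theorem hasDerivAt_Lam (r : ℕ) (u : ℝ) : HasDerivAt (Lam r) (dLam r u) u := by
  have h1 : Lam r = fun u => ∑ j ∈ Finset.range (r - 1), u ^ (j + 1) / ((j : ℝ) + 1) := by
    funext u; exact Lam_eq r u
  rw [h1]
  unfold dLam
  refine HasDerivAt.fun_sum fun j _ => ?_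
  have h2 := (hasDerivAt_pow (j + 1) u).div_const ((j : ℝ) + 1)
  refine h2.congr_deriv ?_
  have : (j : ℝ) + 1 ≠ 0 := by positivity
  push_cast
  field_simp

/-- `exp (2 Λ)` -/
noncomputable def ww (r : ℕ) (u : ℝ) : ℝ := Real.exp (2 * Lam r u)

theorem ww_pos (r : ℕ) (u : ℝ) : 0 < ww r u := Real.exp_pos _

theorem hasDerivAt_ww (r : ℕ) (u : ℝ) : HasDerivAt (ww r) (2 * ww r u * dLam r u) u := by
  unfold ww
  have := ((hasDerivAt_Lam r u).const_mul 2).exp
  refine this.congr_deriv ?_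
  ring

theorem continuous_ww (r : ℕ) : Continuous (ww r) :=
  continuous_iff_continuousAt.mpr fun u => (hasDerivAt_ww r u).continuousAt

theorem ww_zero (r : ℕ) : ww r 0 = 1 := by
  unfold ww
  rw [Lam_eq]
  simp

/-- `(1 - u) Λ'(u) = 1 - u ^ (r - 1)` -/
theorem geom (r : ℕ) (u : ℝ) : (1 - u) * dLam r u = 1 - u ^ (r - 1) := by
  unfold dLam
  have := mul_neg_geom_sum u (r - 1)
  exact this

/-- The kernel `∫_0^x (1 - u) u ^ j e ^ {2 Λ(u)} du`. -/
noncomputable def kap (r j : ℕ) (x : ℝ) : ℝ := ∫ u in (0 : ℝ)..x, (1 - u) * u ^ j * ww r u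

/-- `∫_0^x e ^ {2 Λ}` -/
noncomputable def II (r : ℕ) (x : ℝ) : ℝ := ∫ u in (0 : ℝ)..x, ww r u

theorem cont_kap (r j : ℕ) : Continuous (fun u : ℝ => (1 - u) * u ^ j * ww r u) := by
  have := continuous_ww r
  fun_prop

theorem ii_kap (r j : ℕ) (a b : ℝ) :
    IntervalIntegrable (fun u : ℝ => (1 - u) * u ^ j * ww r u) volume a b :=
  (cont_kap r j).intervalIntegrable a b

theorem kap_diff (r k : ℕ) (x : ℝ) :
    kap r k x - kap r (k + 1) x = ∫ u in (0 : ℝ)..x, (1 - u) ^ 2 * u ^ k * ww r u := by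
  unfold kap
  rw [← intervalIntegral.integral_sub (ii_kap r k 0 x) (ii_kap r (k + 1) 0 x)]
  refine intervalIntegral.integral_congr fun u _ => ?_
  change (1 - u) * u ^ k * ww r u - (1 - u) * u ^ (k + 1) * ww r u = _
  ring

theorem kap_rec {r : ℕ} (hr : 1 ≤ r) (k : ℕ) (x : ℝ) :
    ((k : ℝ) + 1) * (kap r k x - kap r (k + 1) x) =
      x ^ (k + 1) * (1 - x) ^ 2 * ww r x + 2 * kap r (k + r) x := by
  have hc := continuous_ww r
  have h1 : ∫ u in (0 : ℝ)..x, (((k : ℝ) + 1) * ((1 - u) ^ 2 * u ^ k * ww r u) -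
      2 * ((1 - u) * u ^ (k + r) * ww r u)) = x ^ (k + 1) * (1 - x) ^ 2 * ww r x := by
    have h2 : ∀ u ∈ Set.uIcc (0 : ℝ) x, HasDerivAt (fun u => u ^ (k + 1) * (1 - u) ^ 2 * ww r u)
        (((k : ℝ) + 1) * ((1 - u) ^ 2 * u ^ k * ww r u) -
          2 * ((1 - u) * u ^ (k + r) * ww r u)) u := by
      intro u _
      have d1 := hasDerivAt_pow (k + 1) u
      have d2 : HasDerivAt (fun u : ℝ => (1 - u) ^ 2) (2 * (1 - u) * (-1)) u := by
        have := (((hasDerivAt_id u).const_sub 1)).pow 2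
        refine this.congr_deriv ?_
        simp
      have d3 := (d1.mul d2).mul (hasDerivAt_ww r u)
      refine d3.congr_deriv ?_
      have hg := geom r u
      have e1 : u ^ (k + r) = u ^ (k + 1) * u ^ (r - 1) := by
        rw [← pow_add]; congr 1; omega
      rw [e1]
      have e2 : u ^ (r - 1) = 1 - (1 - u) * dLam r u := by linarith
      rw [e2]
      simp only [Pi.mul_apply, Nat.add_sub_cancel]
      push_cast
      ring
    rw [intervalIntegral.integral_eq_sub_of_hasDerivAt h2]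
    · simp
    · apply Continuous.intervalIntegrable
      fun_prop
  rw [kap_diff]
  unfold kap
  rw [intervalIntegral.integral_sub, intervalIntegral.integral_const_mul, intervalIntegral.integral_const_mul] at h1
  · linarith
  · apply Continuous.intervalIntegrable; fun_prop
  · apply Continuous.intervalIntegrable; fun_prop

theorem ww_int1 {r : ℕ} (hr : 1 ≤ r) (x : ℝ) :
    ∫ u in (0 : ℝ)..x, ww r u * (1 - 2 * u ^ r) = x * (1 - x) * ww r x := by
  have hc := continuous_ww r
  have h2 : ∀ u ∈ Set.uIcc (0 : ℝ) x, HasDerivAt (fun u => u * (1 - u) * ww r u)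
      (ww r u * (1 - 2 * u ^ r)) u := by
    intro u _
    have d1 := ((hasDerivAt_id u).mul ((hasDerivAt_id u).const_sub 1)).mul (hasDerivAt_ww r u)
    refine d1.congr_deriv ?_
    have hg := geom r u
    have e1 : u ^ r = u * u ^ (r - 1) := by
      rw [← pow_succ']; congr 1; omega
    rw [e1]
    have e2 : u ^ (r - 1) = 1 - (1 - u) * dLam r u := by linarith
    rw [e2]
    simp only [Pi.mul_apply, id]
    ring
  rw [intervalIntegral.integral_eq_sub_of_hasDerivAt h2]
  · simp
  · apply Continuous.intervalIntegrable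
    fun_prop

theorem ww_int2 (r : ℕ) (x : ℝ) :
    ∫ u in (0 : ℝ)..x, ww r u * (1 + 2 * (u * dLam r u)) = x * ww r x := by
  have hc := continuous_ww r
  have hd : Continuous (dLam r) := by unfold dLam; fun_prop
  have h2 : ∀ u ∈ Set.uIcc (0 : ℝ) x, HasDerivAt (fun u => u * ww r u)
      (ww r u * (1 + 2 * (u * dLam r u))) u := by
    intro u _
    have d1 := (hasDerivAt_id u).mul (hasDerivAt_ww r u)
    refine d1.congr_deriv ?_
    simp only [id]
    ring
  rw [intervalIntegral.integral_eq_sub_of_hasDerivAt h2]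
  · simp
  · apply Continuous.intervalIntegrable
    fun_prop

theorem sum_kap (r : ℕ) (q : ℕ → ℝ) (N : ℕ) (x : ℝ) :
    ∑ j ∈ Finset.range N, q j * kap r j x =
      ∫ u in (0 : ℝ)..x, ww r u * ((1 - u) * ∑ j ∈ Finset.range N, q j * u ^ j) := by
  unfold kap
  simp_rw [← intervalIntegral.integral_const_mul]
  rw [← intervalIntegral.integral_finsetSum]
  · refine intervalIntegral.integral_congr fun u _ => ?_
    change ∑ i ∈ Finset.range N, q i * ((1 - u) * u ^ i * ww r u) = _
    rw [Finset.mul_sum, Finset.mul_sum]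
    refine Finset.sum_congr rfl fun j _ => ?_
    ring
  · intro i _
    exact ((ii_kap r i 0 x).const_mul (q i))

theorem geom1 (r : ℕ) (u : ℝ) : (1 - u) * ∑ j ∈ Finset.range r, u ^ j = 1 - u ^ r :=
  mul_neg_geom_sum u r

theorem geom2 {r : ℕ} (hr : 1 ≤ r) (u : ℝ) : ∑ j ∈ Finset.range r, u ^ j = 1 + u * dLam r u := by
  unfold dLam
  obtain ⟨s, rfl⟩ : ∃ s, r = s + 1 := ⟨r - 1, by omega⟩
  rw [Finset.sum_range_succ', Nat.add_sub_cancel, Finset.mul_sum, pow_zero, add_comm]
  congr 1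
  refine Finset.sum_congr rfl fun j _ => ?_
  ring

theorem geom3 (r : ℕ) (u : ℝ) :
    (1 - u) * ∑ j ∈ Finset.range (r + 1), (j : ℝ) * u ^ j =
      ∑ j ∈ Finset.range (r + 1), u ^ j - 1 - r * u ^ (r + 1) := by
  induction r with
  | zero => simp
  | succ r ih =>
    rw [Finset.sum_range_succ, mul_add, ih, Finset.sum_range_succ (fun j => u ^ j) (r + 1)]
    push_cast
    ring

theorem sum_kap0 {r : ℕ} (hr : 1 ≤ r) (x : ℝ) :
    2 * ∑ j ∈ Finset.range r, kap r j x = II r x + x * (1 - x) * ww r x := by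
  have h1 := sum_kap r (fun _ => 1) r x
  simp only [one_mul] at h1
  rw [h1, ← ww_int1 hr]
  unfold II
  have hc := continuous_ww r
  rw [← intervalIntegral.integral_add, ← intervalIntegral.integral_const_mul]
  · refine intervalIntegral.integral_congr fun u _ => ?_
    change 2 * (ww r u * ((1 - u) * ∑ j ∈ Finset.range r, u ^ j)) = _
    rw [geom1]
    ring
  · exact hc.intervalIntegrable _ _
  · apply Continuous.intervalIntegrable
    fun_prop

theorem sum_kap1 {r : ℕ} (hr : 1 ≤ r) (x : ℝ) :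
    2 * ∑ j ∈ Finset.range r, ((j : ℝ) + r) * kap r j x =
      x * ww r x + (2 * (r : ℝ) - 1) * (x * (1 - x) * ww r x) := by
  rw [sum_kap r (fun j => (j : ℝ) + r) r x, ← ww_int1 hr, ← ww_int2 r x]
  have hc := continuous_ww r
  have hd : Continuous (dLam r) := by unfold dLam; fun_prop
  rw [← intervalIntegral.integral_const_mul, ← intervalIntegral.integral_const_mul, ← intervalIntegral.integral_add]
  · refine intervalIntegral.integral_congr fun u _ => ?_
    change 2 * (ww r u * ((1 - u) * ∑ j ∈ Finset.range r, ((j : ℝ) + r) * u ^ j)) = _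
    have e1 : ∑ j ∈ Finset.range r, ((j : ℝ) + r) * u ^ j =
        ∑ j ∈ Finset.range r, (j : ℝ) * u ^ j + r * ∑ j ∈ Finset.range r, u ^ j := by
      rw [Finset.mul_sum, ← Finset.sum_add_distrib]
      refine Finset.sum_congr rfl fun j _ => ?_
      ring
    obtain ⟨s, hs⟩ : ∃ s, r = s + 1 := ⟨r - 1, by omega⟩
    have g3 := geom3 s u
    rw [← hs] at g3
    have hcs : (s : ℝ) = (r : ℝ) - 1 := by rw [hs]; push_cast; ring
    rw [hcs] at g3
    have g2 := geom2 hr u
    have g1 := geom1 r u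
    have e2 : (1 - u) * ∑ j ∈ Finset.range r, ((j : ℝ) + r) * u ^ j =
        (1 + u * dLam r u) - 1 - ((r : ℝ) - 1) * u ^ r + r * (1 - u ^ r) := by
      rw [e1, mul_add, g3, g2, ← g1, g2]
      ring
    rw [e2]
    ring
  · apply Continuous.intervalIntegrable
    fun_prop
  · apply Continuous.intervalIntegrable
    fun_prop

/-- summation by parts against a solution of the dual recursion -/
theorem star {κ a p : ℕ → ℝ} {r : ℕ}
    (h : ∀ k : ℕ, ((k : ℝ) + 1) * (κ k - κ (k + 1)) = p k + 2 * κ (k + r)) (T : ℕ) :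
    ∑ k ∈ Finset.range T, (((k : ℝ) + 1) * a (k + r) - 2 * ∑ j ∈ Finset.range (k + 1), a j) *
        (κ k - κ (k + 1)) =
      ∑ k ∈ Finset.range T, a (k + r) * p k + 2 * ∑ j ∈ Finset.range r, κ (T + j) * a (T + j) -
        2 * ∑ j ∈ Finset.range r, κ j * a j + 2 * (∑ j ∈ Finset.range T, a j) * κ T := by
  induction T with
  | zero => simp
  | succ T ih =>
    rw [Finset.sum_range_succ, ih, Finset.sum_range_succ (fun k => a (k + r) * p k)]
    have hshift : ∑ j ∈ Finset.range r, κ (T + 1 + j) * a (T + 1 + j) =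
        ∑ j ∈ Finset.range r, κ (T + j) * a (T + j) + κ (T + r) * a (T + r) - κ T * a T := by
      have e1 := Finset.sum_range_succ (fun j => κ (T + j) * a (T + j)) r
      have e2 := Finset.sum_range_succ' (fun j => κ (T + j) * a (T + j)) r
      rw [e1] at e2
      simp only [add_zero] at e2
      have e3 : ∑ j ∈ Finset.range r, κ (T + 1 + j) * a (T + 1 + j) =
          ∑ j ∈ Finset.range r, κ (T + (j + 1)) * a (T + (j + 1)) := by
        refine Finset.sum_congr rfl fun j _ => ?_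
        rw [show T + 1 + j = T + (j + 1) by omega]
      rw [e3]
      linarith
    rw [hshift]
    have hT := h T
    rw [Finset.sum_range_succ (fun j => a j) T]
    linear_combination a (T + r) * hT

/-! ### The kernel at `x = 1` -/

theorem kap_nonneg {r j : ℕ} {x : ℝ} (h0 : 0 ≤ x) (h1 : x ≤ 1) : 0 ≤ kap r j x := by
  unfold kap
  refine intervalIntegral.integral_nonneg h0 fun u hu => ?_
  have := ww_pos r u
  have h2 : 0 ≤ 1 - u := by linarith [hu.2]
  have h3 : 0 ≤ u ^ j := pow_nonneg hu.1 j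
  positivity

theorem kap_anti {r j : ℕ} {x : ℝ} (h0 : 0 ≤ x) : kap r (j + 1) x ≤ kap r j x := by
  rw [← sub_nonneg, kap_diff]
  refine intervalIntegral.integral_nonneg h0 fun u hu => ?_
  have := ww_pos r u
  have h3 : 0 ≤ u ^ j := pow_nonneg hu.1 j
  positivity

theorem kap_antitone {r : ℕ} {x : ℝ} (h0 : 0 ≤ x) : Antitone (fun j => kap r j x) :=
  antitone_nat_of_succ_le fun _ => kap_anti h0

theorem kap_pos {r j : ℕ} : 0 < kap r j 1 := by
  unfold kap
  refine intervalIntegral.intervalIntegral_pos_of_pos_on (ii_kap r j 0 1) (fun u hu => ?_) one_pos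
  have := ww_pos r u
  have h2 : 0 < 1 - u := by linarith [hu.2]
  have h3 : 0 < u ^ j := pow_pos hu.1 j
  positivity

theorem kap_le {r j : ℕ} {x : ℝ} (h0 : 0 ≤ x) (h1 : x ≤ 1) : kap r j x ≤ kap r j 1 := by
  unfold kap
  rw [← intervalIntegral.integral_add_adjacent_intervals (ii_kap r j 0 x) (ii_kap r j x 1)]
  have : 0 ≤ ∫ u in x..1, (1 - u) * u ^ j * ww r u := by
    refine intervalIntegral.integral_nonneg h1 fun u hu => ?_
    have := ww_pos r u
    have h2 : 0 ≤ 1 - u := by linarith [hu.2]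
    have h3 : 0 ≤ u ^ j := pow_nonneg (h0.trans hu.1) j
    positivity
  linarith

end Pool.Agent.Q216.RSA
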