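import Pool.Agent.Q216.RSA.Model
import Pool.Agent.Q216.RSA.Kernel

set_option autoImplicit false

/-!
# Asymptotics of the variance
-/

namespace Pool.Agent.Q216.RSA

open Finset Filter Topology
open MeasureTheory (volume)

/-- `c(r) = ∫_0^1 exp (-2 ∑_{k = 1}^{r - 1} (1 - x ^ k) / k) dx`. -/
noncomputable def cc (r : ℕ) : ℝ :=
  ∫ x in (0 : ℝ)..1, Real.exp (-2 * ∑ k ∈ Finset.Icc 1 (r - 1), (1 - x ^ k) / (k : ℝ))

theorem cc_eq (r : ℕ) : cc r = II r 1 / ww r 1 := by
  unfold cc II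
  rw [← intervalIntegral.integral_div]
  refine intervalIntegral.integral_congr fun u _ => ?_
  change Real.exp _ = ww r u / ww r 1
  unfold ww
  rw [← Real.exp_sub]
  congr 1
  unfold Lam
  rw [← mul_sub, ← Finset.sum_sub_distrib, neg_mul, ← mul_neg, ← Finset.sum_neg_distrib]
  congr 1
  refine Finset.sum_congr rfl fun k _ => ?_
  rw [one_pow]; ring

theorem cc_mul (r : ℕ) : cc r * ww r 1 = II r 1 := by
  rw [cc_eq]
  have := ww_pos r 1
  field_simp

/-! ### asymptotics of the kernel -/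

theorem kk_rec {r : ℕ} (hr : 1 ≤ r) (k : ℕ) :
    ((k : ℝ) + 1) * (kap r k 1 - kap r (k + 1) 1) = 0 + 2 * kap r (k + r) 1 := by
  rw [kap_rec hr k 1]; ring

theorem sum_lin (r T : ℕ) :
    2 * ∑ j ∈ Finset.range T, ((j : ℝ) + r) = (T : ℝ) * ((T : ℝ) - 1 + 2 * r) := by
  induction T with
  | zero => simp
  | succ T ih =>
    rw [Finset.sum_range_succ, mul_add, ih]
    push_cast
    ring

theorem kk_main {r : ℕ} (hr : 1 ≤ r) (T : ℕ) :
    (T : ℝ) * ((T : ℝ) - 1 + 2 * r) * kap r T 1 =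
      ww r 1 - 2 * ∑ j ∈ Finset.range r, kap r (T + j) 1 * (((T + j : ℕ) : ℝ) + r) := by
  have h := star (κ := fun j => kap r j 1) (a := fun j => (j : ℝ) + r) (p := fun _ => 0)
    (kk_rec hr) T
  have h0 : ∑ k ∈ Finset.range T, (((k : ℝ) + 1) * (((k + r : ℕ) : ℝ) + r) -
      2 * ∑ j ∈ Finset.range (k + 1), ((j : ℝ) + r)) * (kap r k 1 - kap r (k + 1) 1) = 0 := by
    refine Finset.sum_eq_zero fun k _ => ?_
    rw [sum_lin]
    push_cast
    ring
  rw [h0, sum_lin] at h
  have h1 := sum_kap1 hr 1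
  have h2 : ∑ j ∈ Finset.range r, kap r j 1 * ((j : ℝ) + r) =
      ∑ j ∈ Finset.range r, ((j : ℝ) + r) * kap r j 1 :=
    Finset.sum_congr rfl fun j _ => mul_comm _ _
  rw [h2] at h
  simp only [mul_zero, Finset.sum_const_zero] at h
  linarith

theorem kk_le {r : ℕ} (hr : 1 ≤ r) {T : ℕ} (hT : 1 ≤ T) :
    kap r T 1 ≤ ww r 1 / ((T : ℝ) * ((T : ℝ) + 1)) := by
  have h := kk_main hr T
  have h1 : 0 ≤ ∑ j ∈ Finset.range r, kap r (T + j) 1 * (((T + j : ℕ) : ℝ) + r) :=
    Finset.sum_nonneg fun j _ => mul_nonneg (kap_nonneg zero_le_one le_rfl) (by positivity)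
  have hT' : (1 : ℝ) ≤ T := by exact_mod_cast hT
  have hr' : (1 : ℝ) ≤ r := by exact_mod_cast hr
  rw [le_div_iff₀ (by positivity)]
  have h2 : 0 ≤ kap r T 1 := kap_nonneg zero_le_one le_rfl
  have h3 : kap r T 1 * ((T : ℝ) * ((T : ℝ) + 1)) ≤
      (T : ℝ) * ((T : ℝ) - 1 + 2 * r) * kap r T 1 := by
    rw [mul_comm]
    refine mul_le_mul_of_nonneg_right ?_ h2
    refine mul_le_mul_of_nonneg_left ?_ (by positivity)
    linarith
  linarith

/-- `(T + c) K_T → 0` -/
theorem kk_lin_tendsto {r : ℕ} (hr : 1 ≤ r) (c : ℝ) :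
    Tendsto (fun T : ℕ => kap r T 1 * ((T : ℝ) + c)) atTop (𝓝 0) := by
  have h1 : ∀ᶠ T : ℕ in atTop, ‖kap r T 1 * ((T : ℝ) + c)‖ ≤ ww r 1 * (1 + |c|) / (T : ℝ) := by
    filter_upwards [eventually_ge_atTop 1] with T hT
    have hT' : (1 : ℝ) ≤ T := by exact_mod_cast hT
    have h2 : 0 ≤ kap r T 1 := kap_nonneg zero_le_one le_rfl
    have h3 : ‖(T : ℝ) + c‖ ≤ (1 + |c|) * ((T : ℝ) + 1) := by
      rw [Real.norm_eq_abs]
      refine (abs_add_le _ _).trans ?_
      rw [abs_of_nonneg (by positivity : (0 : ℝ) ≤ T)]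
      nlinarith [abs_nonneg c]
    rw [norm_mul, Real.norm_eq_abs (kap r T 1), abs_of_nonneg h2]
    calc kap r T 1 * ‖(T : ℝ) + c‖ ≤ ww r 1 / ((T : ℝ) * ((T : ℝ) + 1)) *
          ((1 + |c|) * ((T : ℝ) + 1)) :=
          mul_le_mul (kk_le hr hT) h3 (norm_nonneg _) (by have := ww_pos r 1; positivity)
      _ = ww r 1 * (1 + |c|) / (T : ℝ) := by field_simp
  refine squeeze_zero_norm' h1 ?_
  exact tendsto_const_div_atTop_nhds_zero_nat _

theorem kk_tendsto_zero {r : ℕ} (hr : 1 ≤ r) : Tendsto (fun T : ℕ => kap r T 1) atTop (𝓝 0) := by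
  have h1 := (kk_lin_tendsto hr 1).sub (kk_lin_tendsto hr 0)
  rw [sub_zero] at h1
  refine h1.congr fun T => ?_
  ring

theorem kk_bdry_tendsto {r : ℕ} (hr : 1 ≤ r) {a : ℕ → ℝ} {C c : ℝ}
    (ha : ∀ n, |a n| ≤ C * ((n : ℝ) + c)) :
    Tendsto (fun T : ℕ => ∑ j ∈ Finset.range r, kap r (T + j) 1 * a (T + j)) atTop (𝓝 0) := by
  rw [show (0 : ℝ) = ∑ j ∈ Finset.range r, (0 : ℝ) by simp]
  refine tendsto_finsetSum _ fun j _ => ?_
  have h2 : Tendsto (fun T : ℕ => kap r T 1 * a T) atTop (𝓝 0) := by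
    have h3 := (kk_lin_tendsto hr c).const_mul C
    rw [mul_zero] at h3
    refine squeeze_zero_norm (fun T => ?_) h3
    rw [norm_mul, Real.norm_eq_abs, Real.norm_eq_abs,
      abs_of_nonneg (kap_nonneg zero_le_one le_rfl : 0 ≤ kap r T 1)]
    have := mul_le_mul_of_nonneg_left (ha T) (kap_nonneg zero_le_one le_rfl : 0 ≤ kap r T 1)
    linarith
  exact h2.comp (tendsto_add_atTop_nat j)

theorem kk_sq_tendsto {r : ℕ} (hr : 1 ≤ r) :
    Tendsto (fun T : ℕ => (T : ℝ) * ((T : ℝ) - 1 + 2 * r) * kap r T 1) atTop (𝓝 (ww r 1)) := by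
  have h1 : Tendsto (fun T : ℕ => ∑ j ∈ Finset.range r,
      kap r (T + j) 1 * (((T + j : ℕ) : ℝ) + r)) atTop (𝓝 0) :=
    kk_bdry_tendsto hr (a := fun n => (n : ℝ) + r) (C := 1) (c := r) (fun n => by
      rw [abs_of_nonneg (by positivity), one_mul])
  have h2 := (h1.const_mul 2).const_sub (ww r 1)
  rw [mul_zero, sub_zero] at h2
  exact h2.congr fun T => (kk_main hr T).symm

/-! ### the deviations `ε` -/

/-- `ε_n = E C_n - c (n + r) + 1` -/
noncomputable def eps (r n : ℕ) : ℝ := mm r n - cc r * ((n : ℝ) + r) + 1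

theorem eps_small {r n : ℕ} (h : n < r) : eps r n = 1 - cc r * ((n : ℝ) + r) := by
  unfold eps
  rw [mm_small h]; ring

theorem sum_refl (f : ℕ → ℝ) (k : ℕ) :
    ∑ j ∈ Finset.range (k + 1), f (k - j) = ∑ j ∈ Finset.range (k + 1), f j := by
  have := Finset.sum_range_reflect f (k + 1)
  simpa using this

theorem eps_rec {r : ℕ} (hr : 1 ≤ r) (k : ℕ) :
    ((k : ℝ) + 1) * eps r (k + r) = 2 * ∑ j ∈ Finset.range (k + 1), eps r j := by
  have hm := mm_rec hr k
  rw [Finset.sum_add_distrib, sum_refl (mm r) k] at hm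
  unfold eps
  rw [Finset.sum_add_distrib, Finset.sum_sub_distrib, ← Finset.mul_sum]
  have h1 := sum_lin r (k + 1)
  simp only [Finset.sum_const, Finset.card_range, nsmul_eq_mul]
  push_cast at h1 ⊢
  linear_combination hm + cc r * h1

theorem eps_bdry {r : ℕ} (hr : 1 ≤ r) (x : ℝ) :
    2 * ∑ j ∈ Finset.range r, kap r j x * eps r j =
      II r x + x * (1 - x) * ww r x -
        cc r * (x * ww r x + (2 * (r : ℝ) - 1) * (x * (1 - x) * ww r x)) := by
  have h1 : ∑ j ∈ Finset.range r, kap r j x * eps r j =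
      ∑ j ∈ Finset.range r, kap r j x - cc r * ∑ j ∈ Finset.range r, ((j : ℝ) + r) * kap r j x := by
    rw [Finset.mul_sum, ← Finset.sum_sub_distrib]
    refine Finset.sum_congr rfl fun j hj => ?_
    rw [eps_small (Finset.mem_range.mp hj)]
    ring
  rw [h1, mul_sub, sum_kap0 hr, mul_left_comm, sum_kap1 hr]

theorem eps_bdry_one {r : ℕ} (hr : 1 ≤ r) :
    ∑ j ∈ Finset.range r, kap r j 1 * eps r j = 0 := by
  have h := eps_bdry hr 1
  have h2 := cc_mul r
  have : 2 * ∑ j ∈ Finset.range r, kap r j 1 * eps r j = 0 := by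
    rw [h]; linarith
  linarith

theorem eps_star {r : ℕ} (hr : 1 ≤ r) (x : ℝ) (T : ℕ) :
    ∑ k ∈ Finset.range T, eps r (k + r) * (x ^ (k + 1) * (1 - x) ^ 2 * ww r x) +
      2 * ∑ j ∈ Finset.range r, kap r (T + j) x * eps r (T + j) -
        2 * ∑ j ∈ Finset.range r, kap r j x * eps r j +
        2 * (∑ j ∈ Finset.range T, eps r j) * kap r T x = 0 := by
  have h := star (κ := fun j => kap r j x) (a := eps r)
    (p := fun k => x ^ (k + 1) * (1 - x) ^ 2 * ww r x) (fun k => kap_rec hr k x) T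
  have h0 : ∑ k ∈ Finset.range T, (((k : ℝ) + 1) * eps r (k + r) -
      2 * ∑ j ∈ Finset.range (k + 1), eps r j) * (kap r k x - kap r (k + 1) x) = 0 := by
    refine Finset.sum_eq_zero fun k _ => ?_
    rw [eps_rec hr]; ring
  rw [h0] at h
  exact h.symm

theorem eps_ineq {r : ℕ} (hr : 1 ≤ r) (k : ℕ) :
    ((k : ℝ) + 1) * |eps r (k + r)| ≤ 2 * ∑ j ∈ Finset.range r, |eps r (k + 1 + j)| := by
  have h := eps_star hr 1 (k + 1)
  rw [eps_bdry_one hr] at h
  simp only [sub_self, mul_zero, zero_mul, Finset.sum_const_zero, zero_add, ne_eq,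
    OfNat.ofNat_ne_zero, not_false_eq_true, zero_pow, sub_zero] at h
  rw [← eps_rec hr k] at h
  have hk : 0 < kap r (k + 1) 1 := kap_pos
  have h1 : ((k : ℝ) + 1) * |eps r (k + r)| * kap r (k + 1) 1 =
      |2 * ∑ j ∈ Finset.range r, kap r (k + 1 + j) 1 * eps r (k + 1 + j)| := by
    have h2 : 2 * ∑ j ∈ Finset.range r, kap r (k + 1 + j) 1 * eps r (k + 1 + j) =
        -(((k : ℝ) + 1) * eps r (k + r) * kap r (k + 1) 1) := by linarith
    rw [h2, abs_neg, abs_mul, abs_mul, abs_of_pos hk, abs_of_nonneg (by positivity : (0 : ℝ) ≤ (k : ℝ) + 1)]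
  have h3 : |2 * ∑ j ∈ Finset.range r, kap r (k + 1 + j) 1 * eps r (k + 1 + j)| ≤
      2 * ∑ j ∈ Finset.range r, |eps r (k + 1 + j)| * kap r (k + 1) 1 := by
    rw [abs_mul, abs_of_pos (by norm_num : (0 : ℝ) < 2)]
    refine mul_le_mul_of_nonneg_left ((Finset.abs_sum_le_sum_abs _ _).trans ?_) (by norm_num)
    refine Finset.sum_le_sum fun j _ => ?_
    rw [abs_mul, mul_comm, abs_of_nonneg (kap_nonneg zero_le_one le_rfl :
      0 ≤ kap r (k + 1 + j) 1)]
    exact mul_le_mul_of_nonneg_left (kap_antitone zero_le_one (by omega)) (abs_nonneg _)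
  rw [← Finset.sum_mul, ← mul_assoc] at h3
  rw [← h1] at h3
  exact le_of_mul_le_mul_right h3 hk

theorem eps_bound {r : ℕ} (hr : 1 ≤ r) : ∃ C : ℝ, 0 ≤ C ∧ ∀ n, |eps r n| ≤ C / ((n : ℝ) + 1) ^ 2 := by
  set N := 10 * r + 10 with hN
  refine ⟨∑ n ∈ Finset.range N, |eps r n| * ((n : ℝ) + 1) ^ 2,
    Finset.sum_nonneg fun n _ => by positivity, ?_⟩
  set C := ∑ n ∈ Finset.range N, |eps r n| * ((n : ℝ) + 1) ^ 2 with hC
  have hC0 : 0 ≤ C := Finset.sum_nonneg fun n _ => by positivity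
  intro n
  induction n using Nat.strong_induction_on with
  | _ n ih =>
    rcases lt_or_ge n N with h | h
    · rw [le_div_iff₀ (by positivity)]
      exact Finset.single_le_sum (f := fun n : ℕ => |eps r n| * ((n : ℝ) + 1) ^ 2)
        (fun i _ => by positivity) (Finset.mem_range.mpr h)
    · obtain ⟨k, rfl⟩ : ∃ k, n = k + r := ⟨n - r, by omega⟩
      obtain ⟨s, rfl⟩ : ∃ s, r = s + 1 := ⟨r - 1, by omega⟩
      have h1 := eps_ineq hr k
      rw [Finset.sum_range_succ] at h1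
      have e1 : k + 1 + s = k + (s + 1) := by omega
      rw [e1] at h1
      have hk2 : (0 : ℝ) < (k : ℝ) + 2 := by positivity
      have h2 : ∑ j ∈ Finset.range s, |eps (s + 1) (k + 1 + j)| ≤ s * (C / ((k : ℝ) + 2) ^ 2) := by
        have : ∀ j ∈ Finset.range s, |eps (s + 1) (k + 1 + j)| ≤ C / ((k : ℝ) + 2) ^ 2 := by
          intro j hj
          rw [Finset.mem_range] at hj
          refine (ih (k + 1 + j) (by omega)).trans ?_
          refine div_le_div_of_nonneg_left hC0 (by positivity) ?_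
          refine pow_le_pow_left₀ (by positivity) ?_ 2
          push_cast
          have : (0 : ℝ) ≤ j := Nat.cast_nonneg j
          linarith
        refine (Finset.sum_le_sum this).trans ?_
        rw [Finset.sum_const, Finset.card_range, nsmul_eq_mul]
      have hk : (9 * (s : ℝ) + 19) ≤ k := by
        have : 9 * s + 19 ≤ k := by omega
        exact_mod_cast this
      have hs : (0 : ℝ) ≤ s := Nat.cast_nonneg s
      have h3 : ((k : ℝ) - 1) * |eps (s + 1) (k + (s + 1))| ≤ 2 * (s * (C / ((k : ℝ) + 2) ^ 2)) := by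
        linarith
      have hk1 : (0 : ℝ) < (k : ℝ) - 1 := by linarith
      have h4 : |eps (s + 1) (k + (s + 1))| ≤
          2 * (s * (C / ((k : ℝ) + 2) ^ 2)) / ((k : ℝ) - 1) := by
        rw [le_div_iff₀ hk1]; linarith
      refine h4.trans ?_
      rw [div_le_div_iff₀ hk1 (by positivity)]
      push_cast
      have h5 : ((k : ℝ) + (s + 1) + 1) ^ 2 ≤ 2 * ((k : ℝ) + 2) ^ 2 := by nlinarith
      have h6 : 2 * (s : ℝ) * 2 ≤ (k : ℝ) - 1 := by linarith
      have h7 : 2 * (s * (C / ((k : ℝ) + 2) ^ 2)) * ((k : ℝ) + (s + 1) + 1) ^ 2 ≤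
          2 * (s * (C / ((k : ℝ) + 2) ^ 2)) * (2 * ((k : ℝ) + 2) ^ 2) :=
        mul_le_mul_of_nonneg_left h5 (by positivity)
      refine h7.trans ?_
      have h8 : 2 * (s * (C / ((k : ℝ) + 2) ^ 2)) * (2 * ((k : ℝ) + 2) ^ 2) = C * (2 * s * 2) := by
        field_simp
      rw [h8]
      exact mul_le_mul_of_nonneg_left h6 hC0

theorem eps_summable {r : ℕ} (hr : 1 ≤ r) : Summable (fun n => |eps r n|) := by
  obtain ⟨C, hC, h⟩ := eps_bound hr
  refine Summable.of_nonneg_of_le (fun n => abs_nonneg _) h ?_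
  have h1 : Summable (fun n : ℕ => 1 / ((n : ℝ) + 1) ^ 2) := by
    have := (summable_nat_add_iff 1).mpr (Real.summable_one_div_nat_pow.mpr (one_lt_two))
    simpa using this
  refine (h1.mul_left C).congr fun n => ?_
  ring

theorem eps_sq_summable {r : ℕ} (hr : 1 ≤ r) : Summable (fun n => eps r n ^ 2) := by
  obtain ⟨C, hC, h⟩ := eps_bound hr
  refine Summable.of_nonneg_of_le (fun n => by positivity) (fun n => ?_)
    ((eps_summable hr).mul_left C)
  have h1 : |eps r n| ≤ C := (h n).trans (div_le_self hC (by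
    have : (0 : ℝ) ≤ n := Nat.cast_nonneg n
    nlinarith))
  rw [← sq_abs, sq]
  exact mul_le_mul_of_nonneg_right h1 (abs_nonneg _)

/-! ### the source term -/

/-- the source of the recursion of the variance -/
noncomputable def sig (r k : ℕ) : ℝ :=
  ∑ j ∈ Finset.range (k + 1), (1 + mm r j + mm r (k - j) - mm r (k + r)) ^ 2

theorem sig_nonneg (r k : ℕ) : 0 ≤ sig r k := Finset.sum_nonneg fun _ _ => sq_nonneg _

/-- `c_k = ∑_{j ≤ k} ε_j ε_{k - j}` -/
noncomputable def conv (r k : ℕ) : ℝ := ∑ j ∈ Finset.range (k + 1), eps r j * eps r (k - j)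

theorem sig_eq {r : ℕ} (hr : 1 ≤ r) (k : ℕ) :
    sig r k = 2 * ∑ j ∈ Finset.range (k + 1), eps r j ^ 2 + 2 * conv r k -
      ((k : ℝ) + 1) * eps r (k + r) ^ 2 := by
  have h1 : sig r k = ∑ j ∈ Finset.range (k + 1),
      (eps r j ^ 2 + eps r (k - j) ^ 2 + 2 * (eps r j * eps r (k - j)) -
        2 * eps r (k + r) * (eps r j + eps r (k - j)) + eps r (k + r) ^ 2) := by
    unfold sig
    refine Finset.sum_congr rfl fun j hj => ?_
    rw [Finset.mem_range] at hj
    have hcast : ((k - j : ℕ) : ℝ) = (k : ℝ) - j := by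
      rw [Nat.cast_sub (by omega)]
    have e : 1 + mm r j + mm r (k - j) - mm r (k + r) =
        eps r j + eps r (k - j) - eps r (k + r) := by
      unfold eps
      rw [hcast]
      push_cast
      ring
    rw [e]
    ring
  have h2 := eps_rec hr k
  rw [h1, Finset.sum_add_distrib, Finset.sum_sub_distrib, Finset.sum_add_distrib,
    Finset.sum_add_distrib, ← Finset.mul_sum, ← Finset.mul_sum, Finset.sum_add_distrib,
    sum_refl (eps r) k, sum_refl (fun n => eps r n ^ 2) k]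
  unfold conv
  simp only [Finset.sum_const, Finset.card_range, nsmul_eq_mul]
  push_cast
  linear_combination (2 * eps r (k + r)) * h2

theorem conv_le {r : ℕ} (k : ℕ) : |conv r k| ≤ ∑ j ∈ Finset.range (k + 1), eps r j ^ 2 := by
  unfold conv
  refine (Finset.abs_sum_le_sum_abs _ _).trans ?_
  have h1 : ∀ j ∈ Finset.range (k + 1), |eps r j * eps r (k - j)| ≤
      (eps r j ^ 2 + eps r (k - j) ^ 2) / 2 := by
    intro j _
    rw [abs_mul]
    have := sq_nonneg (|eps r j| - |eps r (k - j)|)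
    rw [← sq_abs (eps r j), ← sq_abs (eps r (k - j))]
    linarith
  refine (Finset.sum_le_sum h1).trans ?_
  rw [← Finset.sum_div, Finset.sum_add_distrib, sum_refl (fun n => eps r n ^ 2) k]
  linarith

theorem sig_le {r : ℕ} (hr : 1 ≤ r) (k : ℕ) : sig r k ≤ 4 * ∑' n, eps r n ^ 2 := by
  rw [sig_eq hr]
  have h1 := (eps_sq_summable hr).sum_le_tsum (Finset.range (k + 1)) (fun n _ => sq_nonneg _)
  have h2 := (le_abs_self _).trans (conv_le (r := r) k)
  have h3 : 0 ≤ ((k : ℝ) + 1) * eps r (k + r) ^ 2 := by positivity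
  linarith

/-! ### the variance -/

theorem vv_rec' {r : ℕ} (hr : 1 ≤ r) (k : ℕ) :
    ((k : ℝ) + 1) * vv r (k + r) = 2 * ∑ j ∈ Finset.range (k + 1), vv r j + sig r k :=
  vv_rec hr k

theorem vv_nonneg {r : ℕ} (hr : 1 ≤ r) (n : ℕ) : 0 ≤ vv r n := by
  rw [← var_countLaw hr]
  exact ProbabilityTheory.variance_nonneg _ _

theorem vv_le {r : ℕ} (hr : 1 ≤ r) (n : ℕ) :
    vv r n ≤ (4 * ∑' n, eps r n ^ 2) * ((n : ℝ) + r - 1) := by
  set B := 4 * ∑' n, eps r n ^ 2 with hB
  have hB0 : 0 ≤ B := by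
    have : 0 ≤ ∑' n, eps r n ^ 2 := tsum_nonneg fun n => sq_nonneg _
    linarith
  have hr' : (1 : ℝ) ≤ r := by exact_mod_cast hr
  induction n using Nat.strong_induction_on with
  | _ n ih =>
    rcases lt_or_ge n r with h | h
    · rw [vv_small h]
      have : (0 : ℝ) ≤ n := Nat.cast_nonneg n
      exact mul_nonneg hB0 (by linarith)
    · obtain ⟨k, rfl⟩ : ∃ k, n = k + r := ⟨n - r, by omega⟩
      have h1 := vv_rec' hr k
      have h2 : ∑ j ∈ Finset.range (k + 1), vv r j ≤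
          ∑ j ∈ Finset.range (k + 1), B * ((j : ℝ) + r - 1) :=
        Finset.sum_le_sum fun j hj => ih j (by rw [Finset.mem_range] at hj; omega)
      have h3 : 2 * ∑ j ∈ Finset.range (k + 1), B * ((j : ℝ) + r - 1) =
          B * (((k : ℝ) + 1) * ((k : ℝ) + 2 * r) - 2 * ((k : ℝ) + 1)) := by
        have := sum_lin r (k + 1)
        rw [← Finset.mul_sum, Finset.sum_sub_distrib]
        simp only [Finset.sum_const, Finset.card_range, nsmul_eq_mul]
        push_cast at this ⊢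
        linear_combination B * this
      have h4 := sig_le hr k
      have hk : (0 : ℝ) < (k : ℝ) + 1 := by positivity
      have h5 : ((k : ℝ) + 1) * vv r (k + r) ≤
          ((k : ℝ) + 1) * (B * (((k + r : ℕ) : ℝ) + r - 1)) := by
        rw [h1]
        push_cast
        have h6 : B ≤ B * ((k : ℝ) + 1) := by nlinarith [Nat.cast_nonneg (α := ℝ) k]
        nlinarith
      exact le_of_mul_le_mul_left h5 hk

theorem g_nonneg (r k : ℕ) : 0 ≤ kap r k 1 - kap r (k + 1) 1 := by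
  rw [sub_nonneg]; exact kap_anti zero_le_one

theorem g_summable (r : ℕ) : Summable (fun k => kap r k 1 - kap r (k + 1) 1) := by
  refine summable_of_sum_range_le (c := kap r 0 1) (fun k => g_nonneg r k) (fun n => ?_)
  rw [Finset.sum_range_sub' (fun k => kap r k 1) n]
  have : 0 ≤ kap r n 1 := kap_nonneg zero_le_one le_rfl
  linarith

theorem bdd_mul_g_summable {r : ℕ} {b : ℕ → ℝ} {B : ℝ} (hb : ∀ k, |b k| ≤ B) :
    Summable (fun k => b k * (kap r k 1 - kap r (k + 1) 1)) := by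
  refine Summable.of_norm_bounded ((g_summable r).mul_left B) fun k => ?_
  rw [norm_mul, Real.norm_eq_abs, Real.norm_eq_abs, abs_of_nonneg (g_nonneg r k)]
  exact mul_le_mul_of_nonneg_right (hb k) (g_nonneg r k)

theorem conv_bdd {r : ℕ} (hr : 1 ≤ r) (k : ℕ) : |conv r k| ≤ ∑' n, eps r n ^ 2 :=
  (conv_le k).trans ((eps_sq_summable hr).sum_le_tsum _ (fun n _ => sq_nonneg _))

/-- `lim Var(C_n) / n` as a series -/
theorem vv_limit {r : ℕ} (hr : 1 ≤ r) :
    Tendsto (fun n : ℕ => vv r n / (n : ℝ)) atTop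
      (𝓝 ((∑' k, sig r k * (kap r k 1 - kap r (k + 1) 1)) / ww r 1)) := by
  have hr' : (1 : ℝ) ≤ r := by exact_mod_cast hr
  have hW := ww_pos r 1
  set B := 4 * ∑' n, eps r n ^ 2 with hB
  have hB0 : 0 ≤ B := by
    have : 0 ≤ ∑' n, eps r n ^ 2 := tsum_nonneg fun n => sq_nonneg _
    linarith
  have hsb : ∀ k, |sig r k| ≤ B := fun k => by
    rw [abs_of_nonneg (sig_nonneg r k)]; exact sig_le hr k
  -- the partial sums of the series
  have h1 := (bdd_mul_g_summable (r := r) hsb).hasSum.tendsto_sum_nat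
  have h2 : ∀ T : ℕ, ∑ k ∈ Finset.range T, sig r k * (kap r k 1 - kap r (k + 1) 1) =
      2 * ∑ j ∈ Finset.range r, kap r (T + j) 1 * vv r (T + j) +
        2 * (∑ j ∈ Finset.range T, vv r j) * kap r T 1 := by
    intro T
    have h := star (κ := fun j => kap r j 1) (a := vv r) (p := fun _ => 0) (kk_rec hr) T
    have e : ∀ k ∈ Finset.range T, (((k : ℝ) + 1) * vv r (k + r) -
        2 * ∑ j ∈ Finset.range (k + 1), vv r j) * (kap r k 1 - kap r (k + 1) 1) =
        sig r k * (kap r k 1 - kap r (k + 1) 1) := by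
      intro k _
      rw [vv_rec' hr k]; ring
    rw [Finset.sum_congr rfl e] at h
    rw [h]
    have e2 : ∑ j ∈ Finset.range r, kap r j 1 * vv r j = 0 := by
      refine Finset.sum_eq_zero fun j hj => ?_
      rw [vv_small (Finset.mem_range.mp hj), mul_zero]
    rw [e2]
    simp
  have h3 : Tendsto (fun T : ℕ => ∑ j ∈ Finset.range r, kap r (T + j) 1 * vv r (T + j)) atTop
      (𝓝 0) := by
    refine kk_bdry_tendsto hr (C := B) (c := (r : ℝ) - 1) (fun n => ?_)
    rw [abs_of_nonneg (vv_nonneg hr n)]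
    have := vv_le hr n
    rw [← hB] at this
    linarith
  have h4 : Tendsto (fun T : ℕ => 2 * (∑ j ∈ Finset.range T, vv r j) * kap r T 1) atTop
      (𝓝 (∑' k, sig r k * (kap r k 1 - kap r (k + 1) 1))) := by
    have := h1.sub (h3.const_mul 2)
    rw [mul_zero, sub_zero] at this
    refine this.congr fun T => ?_
    rw [h2 T]; ring
  have h5 := (h4.comp (tendsto_add_atTop_nat 1)).div ((kk_sq_tendsto hr).comp
    (tendsto_add_atTop_nat 1)) hW.ne'
  -- `vv (k + r) / (k + 2 r)`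
  have h6 : Tendsto (fun k : ℕ => sig r k / (((k : ℝ) + 1) * ((k : ℝ) + 2 * r))) atTop (𝓝 0) := by
    have h7 : Tendsto (fun k : ℕ => B / ((k : ℝ) + 1)) atTop (𝓝 0) := by
      have := (tendsto_const_div_atTop_nhds_zero_nat B).comp (tendsto_add_atTop_nat 1)
      refine this.congr fun k => ?_
      simp
    refine squeeze_zero (fun k => div_nonneg (sig_nonneg r k) (by positivity)) (fun k => ?_) h7
    have hk : (0 : ℝ) ≤ k := Nat.cast_nonneg k
    rw [div_le_div_iff₀ (by positivity) (by positivity)]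
    have h8 := sig_le hr k
    rw [← hB] at h8
    have h9 : sig r k * ((k : ℝ) + 1) ≤ B * ((k : ℝ) + 1) :=
      mul_le_mul_of_nonneg_right h8 (by positivity)
    have h10 : B * ((k : ℝ) + 1) ≤ B * (((k : ℝ) + 1) * ((k : ℝ) + 2 * r)) := by
      refine mul_le_mul_of_nonneg_left ?_ hB0
      nlinarith
    linarith
  have h8 : Tendsto (fun k : ℕ => vv r (k + r) / ((k : ℝ) + 2 * r)) atTop
      (𝓝 ((∑' k, sig r k * (kap r k 1 - kap r (k + 1) 1)) / ww r 1)) := by
    have := h5.add h6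
    rw [add_zero] at this
    refine this.congr fun k => ?_
    have hv := vv_rec' hr k
    have hk : (0 : ℝ) ≤ k := Nat.cast_nonneg k
    have hkp : 0 < kap r (k + 1) 1 := kap_pos
    have hv' : vv r (k + r) = (2 * ∑ j ∈ Finset.range (k + 1), vv r j + sig r k) / ((k : ℝ) + 1) := by
      rw [← hv]; field_simp
    rw [hv']
    simp only [Function.comp_apply, Pi.div_apply]
    push_cast
    have e1 : ((k : ℝ) + 1 - 1 + 2 * r) = (k : ℝ) + 2 * r := by ring
    rw [e1]
    have hne : (k : ℝ) + 2 * r ≠ 0 := by positivity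
    field_simp
  -- change of the denominator and of the index
  have h9 : Tendsto (fun k : ℕ => ((k : ℝ) + 2 * r) / (((k + r : ℕ) : ℝ))) atTop (𝓝 1) := by
    have h10 : Tendsto (fun k : ℕ => 1 + (r : ℝ) / (((k + r : ℕ) : ℝ))) atTop (𝓝 (1 + 0)) :=
      ((tendsto_const_div_atTop_nhds_zero_nat (r : ℝ)).comp (tendsto_add_atTop_nat r)).const_add 1
    rw [add_zero] at h10
    refine h10.congr fun k => ?_
    have : ((k + r : ℕ) : ℝ) ≠ 0 := by
      have : (0 : ℕ) < k + r := by omega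
      exact_mod_cast this.ne'
    field_simp
    push_cast
    ring
  have h10 := h8.mul h9
  rw [mul_one] at h10
  rw [← tendsto_add_atTop_iff_nat r]
  refine h10.congr fun k => ?_
  have h11 : (k : ℝ) + 2 * r ≠ 0 := by
    have : (0 : ℝ) ≤ k := Nat.cast_nonneg k
    positivity
  have : ((k + r : ℕ) : ℝ) ≠ 0 := by
    have : (0 : ℕ) < k + r := by omega
    exact_mod_cast this.ne'
  field_simp

/-! ### identification of the series -/

theorem sum_sq_part {r : ℕ} (hr : 1 ≤ r) :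
    ∑' k, sig r k * (kap r k 1 - kap r (k + 1) 1) =
      2 * ∑ j ∈ Finset.range r, kap r j 1 * eps r j ^ 2 +
        2 * ∑' k, conv r k * (kap r k 1 - kap r (k + 1) 1) := by
  have hsb : ∀ k, |sig r k| ≤ 4 * ∑' n, eps r n ^ 2 := fun k => by
    rw [abs_of_nonneg (sig_nonneg r k)]; exact sig_le hr k
  have h1 := (bdd_mul_g_summable (r := r) hsb).hasSum.tendsto_sum_nat
  have h2 := ((bdd_mul_g_summable (r := r) (conv_bdd hr)).hasSum.tendsto_sum_nat).const_mul 2
  have h3 : Tendsto (fun T : ℕ => ∑ j ∈ Finset.range r, kap r (T + j) 1 * eps r (T + j) ^ 2) atTop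
      (𝓝 0) := by
    obtain ⟨C, hC, h⟩ := eps_bound hr
    refine kk_bdry_tendsto hr (a := fun n => eps r n ^ 2) (C := C ^ 2) (c := 1) (fun n => ?_)
    have hn : (0 : ℝ) ≤ n := Nat.cast_nonneg n
    have h4 : |eps r n| ≤ C := (h n).trans (div_le_self hC (by nlinarith))
    rw [abs_of_nonneg (sq_nonneg _), ← sq_abs]
    have h5 : |eps r n| ^ 2 ≤ C ^ 2 := pow_le_pow_left₀ (abs_nonneg _) h4 2
    have h6 : C ^ 2 * 1 ≤ C ^ 2 * ((n : ℝ) + 1) :=
      mul_le_mul_of_nonneg_left (by linarith) (sq_nonneg C)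
    linarith
  have h4 : Tendsto (fun T : ℕ => (∑ j ∈ Finset.range T, eps r j ^ 2) * kap r T 1) atTop
      (𝓝 ((∑' n, eps r n ^ 2) * 0)) :=
    (eps_sq_summable hr).hasSum.tendsto_sum_nat.mul (kk_tendsto_zero hr)
  have h5 : ∀ T : ℕ, ∑ k ∈ Finset.range T, sig r k * (kap r k 1 - kap r (k + 1) 1) =
      -(2 * ∑ j ∈ Finset.range r, kap r (T + j) 1 * eps r (T + j) ^ 2) +
        2 * ∑ j ∈ Finset.range r, kap r j 1 * eps r j ^ 2 -
        2 * ((∑ j ∈ Finset.range T, eps r j ^ 2) * kap r T 1) +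
        2 * ∑ k ∈ Finset.range T, conv r k * (kap r k 1 - kap r (k + 1) 1) := by
    intro T
    have h := star (κ := fun j => kap r j 1) (a := fun n => eps r n ^ 2) (p := fun _ => 0)
      (kk_rec hr) T
    have e : ∑ k ∈ Finset.range T, sig r k * (kap r k 1 - kap r (k + 1) 1) =
        2 * ∑ k ∈ Finset.range T, conv r k * (kap r k 1 - kap r (k + 1) 1) -
        ∑ k ∈ Finset.range T, (((k : ℝ) + 1) * eps r (k + r) ^ 2 -
          2 * ∑ j ∈ Finset.range (k + 1), eps r j ^ 2) * (kap r k 1 - kap r (k + 1) 1) := by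
      rw [Finset.mul_sum, ← Finset.sum_sub_distrib]
      refine Finset.sum_congr rfl fun k _ => ?_
      rw [sig_eq hr k]; ring
    rw [e, h]
    simp only [mul_zero, Finset.sum_const_zero]
    ring
  have h6 : Tendsto (fun T : ℕ => ∑ k ∈ Finset.range T, sig r k * (kap r k 1 - kap r (k + 1) 1))
      atTop (𝓝 (-(2 * 0) + 2 * ∑ j ∈ Finset.range r, kap r j 1 * eps r j ^ 2 -
        2 * ((∑' n, eps r n ^ 2) * 0) +
        2 * ∑' k, conv r k * (kap r k 1 - kap r (k + 1) 1))) := by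
    refine Tendsto.congr (fun T => (h5 T).symm) ?_
    exact (((h3.const_mul 2).neg.add_const _).sub (h4.const_mul 2)).add h2
  have := tendsto_nhds_unique h1 h6
  rw [this]
  ring

/-- the generating function of `ε` -/
noncomputable def EE (r : ℕ) (x : ℝ) : ℝ := ∑' n, eps r n * x ^ n

theorem ee_summable {r : ℕ} (hr : 1 ≤ r) {x : ℝ} (h0 : 0 ≤ x) (h1 : x ≤ 1) :
    Summable (fun n => ‖eps r n * x ^ n‖) := by
  refine Summable.of_nonneg_of_le (fun n => norm_nonneg _) (fun n => ?_) (eps_summable hr)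
  rw [norm_mul, Real.norm_eq_abs, Real.norm_eq_abs, abs_of_nonneg (pow_nonneg h0 n)]
  exact mul_le_of_le_one_right (abs_nonneg _) (pow_le_one₀ h0 h1)

theorem ee_sq {r : ℕ} (hr : 1 ≤ r) {x : ℝ} (h0 : 0 ≤ x) (h1 : x ≤ 1) :
    EE r x ^ 2 = ∑' k, conv r k * x ^ k := by
  unfold EE
  have hs := ee_summable hr h0 h1
  rw [sq, tsum_mul_tsum_eq_tsum_sum_range_of_summable_norm hs hs]
  refine tsum_congr fun k => ?_
  unfold conv
  rw [Finset.sum_mul]
  refine Finset.sum_congr rfl fun j hj => ?_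
  rw [Finset.mem_range] at hj
  have : x ^ k = x ^ j * x ^ (k - j) := by rw [← pow_add]; congr 1; omega
  rw [this]; ring

theorem conv_part {r : ℕ} (hr : 1 ≤ r) :
    ∑' k, conv r k * (kap r k 1 - kap r (k + 1) 1) =
      ∫ u in (0 : ℝ)..1, (1 - u) ^ 2 * ww r u * EE r u ^ 2 := by
  have hc := continuous_ww r
  have e1 : ∀ k, conv r k * (kap r k 1 - kap r (k + 1) 1) =
      ∫ u in Set.Ioc (0 : ℝ) 1, conv r k * ((1 - u) ^ 2 * u ^ k * ww r u) := by
    intro k
    rw [kap_diff, intervalIntegral.integral_of_le zero_le_one, MeasureTheory.integral_const_mul]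
  have hint : ∀ k, MeasureTheory.Integrable
      (fun u : ℝ => conv r k * ((1 - u) ^ 2 * u ^ k * ww r u))
      (volume.restrict (Set.Ioc (0 : ℝ) 1)) := by
    intro k
    have : Continuous (fun u : ℝ => conv r k * ((1 - u) ^ 2 * u ^ k * ww r u)) := by fun_prop
    exact (this.integrableOn_Icc).mono_set Set.Ioc_subset_Icc_self
  rw [tsum_congr e1, MeasureTheory.integral_tsum_of_summable_integral_norm hint,
    intervalIntegral.integral_of_le zero_le_one]
  · refine MeasureTheory.setIntegral_congr_fun measurableSet_Ioc fun u hu => ?_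
    change ∑' k, conv r k * ((1 - u) ^ 2 * u ^ k * ww r u) = (1 - u) ^ 2 * ww r u * EE r u ^ 2
    rw [ee_sq hr hu.1.le hu.2, ← tsum_mul_left]
    refine tsum_congr fun k => ?_
    ring
  · have e2 : ∀ k, ∫ u in Set.Ioc (0 : ℝ) 1, ‖conv r k * ((1 - u) ^ 2 * u ^ k * ww r u)‖ =
        |conv r k| * (kap r k 1 - kap r (k + 1) 1) := by
      intro k
      rw [kap_diff, intervalIntegral.integral_of_le zero_le_one, ← MeasureTheory.integral_const_mul]
      refine MeasureTheory.setIntegral_congr_fun measurableSet_Ioc fun u hu => ?_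
      change ‖conv r k * ((1 - u) ^ 2 * u ^ k * ww r u)‖ = _
      have := ww_pos r u
      have h3 : 0 ≤ u ^ k := pow_nonneg hu.1.le k
      rw [norm_mul, Real.norm_eq_abs, Real.norm_eq_abs,
        abs_of_nonneg (by positivity : 0 ≤ (1 - u) ^ 2 * u ^ k * ww r u)]
    simp_rw [e2]
    refine bdd_mul_g_summable (B := ∑' n, eps r n ^ 2) fun k => ?_
    rw [abs_abs]; exact conv_bdd hr k

/-- closed form of the generating function -/
theorem ee_closed {r : ℕ} (hr : 1 ≤ r) {x : ℝ} (h0 : 0 ≤ x) (h1 : x < 1) :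
    (1 - x) ^ 2 * EE r x =
      x ^ (r - 1) / ww r x * II r x - cc r * x + (1 - cc r * r) * (1 - x) := by
  have hW := ww_pos r x
  -- the tail of the series
  have hs : Summable (fun k : ℕ => eps r (k + r) * x ^ (k + 1)) := by
    refine Summable.of_norm_bounded ((summable_nat_add_iff r).mpr (eps_summable hr)) fun k => ?_
    rw [norm_mul, Real.norm_eq_abs, Real.norm_eq_abs, abs_of_nonneg (pow_nonneg h0 _)]
    exact mul_le_of_le_one_right (abs_nonneg _) (pow_le_one₀ h0 h1.le)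
  obtain ⟨C, hC, hb⟩ := eps_bound hr
  have hbC : ∀ n, |eps r n| ≤ C := fun n => (hb n).trans (div_le_self hC (by
    have : (0 : ℝ) ≤ n := Nat.cast_nonneg n
    nlinarith))
  have hkx : Tendsto (fun T : ℕ => kap r T x) atTop (𝓝 0) :=
    squeeze_zero (fun T => kap_nonneg h0 h1.le) (fun T => kap_le h0 h1.le) (kk_tendsto_zero hr)
  have t1 := (hs.mul_right ((1 - x) ^ 2 * ww r x)).hasSum.tendsto_sum_nat
  have t2 : Tendsto (fun T : ℕ => ∑ j ∈ Finset.range r, kap r (T + j) x * eps r (T + j)) atTop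
      (𝓝 0) := by
    rw [show (0 : ℝ) = ∑ j ∈ Finset.range r, (0 : ℝ) by simp]
    refine tendsto_finsetSum _ fun j _ => ?_
    have h2 : Tendsto (fun T : ℕ => kap r T x * eps r T) atTop (𝓝 0) := by
      have h3 := hkx.mul_const C
      rw [zero_mul] at h3
      refine squeeze_zero_norm (fun T => ?_) h3
      rw [norm_mul, Real.norm_eq_abs, Real.norm_eq_abs,
        abs_of_nonneg (kap_nonneg h0 h1.le : 0 ≤ kap r T x)]
      exact mul_le_mul_of_nonneg_left (hbC T) (kap_nonneg h0 h1.le)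
    exact h2.comp (tendsto_add_atTop_nat j)
  have t3 : Tendsto (fun T : ℕ => (∑ j ∈ Finset.range T, eps r j) * kap r T x) atTop
      (𝓝 ((∑' n, eps r n) * 0)) :=
    (eps_summable hr).of_abs.hasSum.tendsto_sum_nat.mul hkx
  have t4 : Tendsto (fun T : ℕ =>
      ∑ k ∈ Finset.range T, eps r (k + r) * x ^ (k + 1) * ((1 - x) ^ 2 * ww r x) +
      2 * ∑ j ∈ Finset.range r, kap r (T + j) x * eps r (T + j) -
        2 * ∑ j ∈ Finset.range r, kap r j x * eps r j +
        2 * ((∑ j ∈ Finset.range T, eps r j) * kap r T x)) atTop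
      (𝓝 (∑' k, eps r (k + r) * x ^ (k + 1) * ((1 - x) ^ 2 * ww r x) + 2 * 0 -
        2 * ∑ j ∈ Finset.range r, kap r j x * eps r j + 2 * ((∑' n, eps r n) * 0))) :=
    ((t1.add (t2.const_mul 2)).sub_const _).add (t3.const_mul 2)
  have t5 : (∑' k, eps r (k + r) * x ^ (k + 1) * ((1 - x) ^ 2 * ww r x) + 2 * 0 -
        2 * ∑ j ∈ Finset.range r, kap r j x * eps r j + 2 * ((∑' n, eps r n) * 0)) = 0 := by
    refine tendsto_nhds_unique t4 ?_
    refine tendsto_const_nhds.congr fun T => ?_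
    have := eps_star hr x T
    rw [← this]
    have e : ∑ k ∈ Finset.range T, eps r (k + r) * x ^ (k + 1) * ((1 - x) ^ 2 * ww r x) =
        ∑ k ∈ Finset.range T, eps r (k + r) * (x ^ (k + 1) * (1 - x) ^ 2 * ww r x) :=
      Finset.sum_congr rfl fun k _ => by ring
    rw [e]
    ring
  rw [tsum_mul_right, eps_bdry hr] at t5
  -- the head of the series
  have hE : EE r x = ∑ j ∈ Finset.range r, eps r j * x ^ j +
      x ^ (r - 1) * ∑' k, eps r (k + r) * x ^ (k + 1) := by
    unfold EE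
    have hsum : Summable (fun n => eps r n * x ^ n) := (ee_summable hr h0 h1.le).of_norm
    rw [← hsum.sum_add_tsum_nat_add r, ← tsum_mul_left]
    congr 1
    refine tsum_congr fun k => ?_
    have : x ^ (k + r) = x ^ (r - 1) * x ^ (k + 1) := by rw [← pow_add]; congr 1; omega
    rw [this]; ring
  have hhead : (1 - x) * ∑ j ∈ Finset.range r, eps r j * x ^ j =
      (1 - x ^ r) - cc r * ((1 + x * dLam r x) - 1 - ((r : ℝ) - 1) * x ^ r +
        r * (1 - x ^ r)) := by
    have e0 : ∑ j ∈ Finset.range r, eps r j * x ^ j = ∑ j ∈ Finset.range r, x ^ j -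
        cc r * (∑ j ∈ Finset.range r, (j : ℝ) * x ^ j + r * ∑ j ∈ Finset.range r, x ^ j) := by
      rw [Finset.mul_sum, ← Finset.sum_add_distrib, Finset.mul_sum, ← Finset.sum_sub_distrib]
      refine Finset.sum_congr rfl fun j hj => ?_
      rw [eps_small (Finset.mem_range.mp hj)]
      ring
    obtain ⟨s, hs'⟩ : ∃ s, r = s + 1 := ⟨r - 1, by omega⟩
    have g3 := geom3 s x
    rw [← hs'] at g3
    have hcs : (s : ℝ) = (r : ℝ) - 1 := by rw [hs']; push_cast; ring
    rw [hcs] at g3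
    have g2 := geom2 hr x
    have g1 := geom1 r x
    rw [e0]
    linear_combination (1 - cc r * r) * g1 - cc r * g3 - cc r * g2
  set S := ∑' k, eps r (k + r) * x ^ (k + 1) with hS
  have hg := geom r x
  have hxr : x ^ r = x * x ^ (r - 1) := by
    rw [← pow_succ']; congr 1; omega
  have e3 : (1 - x) ^ 2 * (∑ j ∈ Finset.range r, eps r j * x ^ j) =
      (1 - x) * ((1 - x ^ r) - cc r * ((1 + x * dLam r x) - 1 - ((r : ℝ) - 1) * x ^ r +
        r * (1 - x ^ r))) := by
    rw [← hhead]; ring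
  have e4 : S * (1 - x) ^ 2 = (II r x + x * (1 - x) * ww r x -
      cc r * (x * ww r x + (2 * (r : ℝ) - 1) * (x * (1 - x) * ww r x))) / ww r x := by
    rw [eq_div_iff hW.ne']
    linarith
  rw [hE, mul_add, e3]
  have e5 : (1 - x) ^ 2 * (x ^ (r - 1) * S) = x ^ (r - 1) * (S * (1 - x) ^ 2) := by ring
  rw [e5, e4, hxr]
  field_simp
  linear_combination (-(cc r * x * ww r x)) * hg

end Pool.Agent.Q216.RSA
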