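import Mathlib

set_option autoImplicit false

/-!
# Random sequential adsorption of `r`-mers: the model and the recursions of the first two moments
-/

namespace Pool.Agent.Q216.RSA

open Finset

/-- The sites of the block of `r` consecutive sites with left end `i`. -/
def block (r i : ℕ) : Finset ℕ := Finset.Ico i (i + r)

/-- The left ends of the blocks of `r` consecutive sites of `{1, ..., n}` all of whose sites are
uncovered, when the blocks with left ends in `s` are covered by `r`-mers. -/
def free (r n : ℕ) (s : Finset ℕ) : Finset ℕ :=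
  (Finset.Icc 1 (n + 1 - r)).filter (fun i => ∀ j ∈ s, Disjoint (block r i) (block r j))

/-- One placement: a block is chosen uniformly among the blocks that are still entirely uncovered
and an `r`-mer is put there; nothing happens if there is no such block. -/
noncomputable def step (r n : ℕ) (s : Finset ℕ) : PMF (Finset ℕ) :=
  if h : (free r n s).Nonempty then
    (PMF.uniformOfFinset (free r n s) h).map (fun i => insert i s)
  else PMF.pure s

/-- The law of the configuration (the set of the left ends of the adsorbed `r`-mers) after `k`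
placements when the configuration at the start is `s`. -/
noncomputable def rsa (r n : ℕ) : ℕ → Finset ℕ → PMF (Finset ℕ)
  | 0, s => PMF.pure s
  | k + 1, s => (step r n s).bind (rsa r n k)

/-- The law of the number `C_n` of `r`-mers of the jammed configuration (there are at most `n`
placements). -/
noncomputable def countLaw (r n : ℕ) : PMF ℕ := (rsa r n n ∅).map Finset.card

/-! ### Expectations of finitely supported laws -/

/-- expectation -/
noncomputable def ex {α : Type*} (p : PMF α) (f : α → ℝ) : ℝ := ∑' a, (p a).toReal * f a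

theorem ex_pure {α : Type*} (a : α) (f : α → ℝ) : ex (PMF.pure a) f = f a := by
  classical
  unfold ex
  rw [tsum_eq_single a]
  · simp [PMF.pure_apply]
  · intro b hb
    simp [PMF.pure_apply, hb]

theorem fs_pure {α : Type*} (a : α) : (PMF.pure a).support.Finite := by
  rw [PMF.support_pure]; exact Set.finite_singleton a

theorem summable_ex {α : Type*} {p : PMF α} (hp : p.support.Finite) (f : α → ℝ) :
    Summable (fun a => (p a).toReal * f a) := by
  refine summable_of_hasFiniteSupport (hp.subset fun a ha => ?_)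
  rw [Function.mem_support] at ha
  rw [PMF.mem_support_iff]
  intro h0
  apply ha
  rw [h0]; simp

theorem fs_bind {α β : Type*} {p : PMF α} {q : α → PMF β} (hp : p.support.Finite)
    (hq : ∀ a ∈ p.support, (q a).support.Finite) : (p.bind q).support.Finite := by
  rw [PMF.support_bind]
  exact hp.biUnion hq

theorem ex_bind {α β : Type*} {p : PMF α} {q : α → PMF β} {f : β → ℝ} (T : Finset α)
    (hT : ∀ a, a ∉ T → p a = 0) (hq : ∀ a ∈ T, (q a).support.Finite) :
    ex (p.bind q) f = ∑ a ∈ T, (p a).toReal * ex (q a) f := by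
  have h1 : ∀ b, ((p.bind q) b).toReal * f b = ∑ a ∈ T, (p a).toReal * ((q a b).toReal * f b) := by
    intro b
    rw [PMF.bind_apply, tsum_eq_sum (s := T) (fun a ha => by rw [hT a ha, zero_mul]),
      ENNReal.toReal_sum, Finset.sum_mul]
    · refine Finset.sum_congr rfl fun a _ => ?_
      rw [ENNReal.toReal_mul, mul_assoc]
    · intro a _
      exact ENNReal.mul_ne_top (PMF.apply_ne_top p a) (PMF.apply_ne_top (q a) b)
  unfold ex
  simp_rw [h1]
  rw [Summable.tsum_finsetSum]
  · refine Finset.sum_congr rfl fun a _ => ?_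
    rw [tsum_mul_left]
  · intro a ha
    exact (summable_ex (hq a ha) f).mul_left _

theorem fs_step (r n : ℕ) (s : Finset ℕ) : (step r n s).support.Finite := by
  unfold step
  split_ifs with h
  · rw [PMF.support_map, PMF.support_uniformOfFinset]
    exact (Finset.finite_toSet _).image _
  · exact fs_pure s

theorem fs_rsa (r n : ℕ) : ∀ (k : ℕ) (s : Finset ℕ), (rsa r n k s).support.Finite
  | 0, s => fs_pure s
  | k + 1, s => fs_bind (fs_step r n s) (fun a _ => fs_rsa r n k a)

theorem ex_rsa_succ {r n k : ℕ} {s : Finset ℕ} (h : (free r n s).Nonempty) (f : Finset ℕ → ℝ) :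
    ex (rsa r n (k + 1) s) f =
      (∑ i ∈ free r n s, ex (rsa r n k (insert i s)) f) / ((free r n s).card : ℝ) := by
  have h1 : rsa r n (k + 1) s =
      (PMF.uniformOfFinset (free r n s) h).bind (fun i => rsa r n k (insert i s)) := by
    change (step r n s).bind (rsa r n k) = _
    unfold step
    rw [dif_pos h, PMF.bind_map]
    rfl
  rw [h1, ex_bind (free r n s) (fun a ha => PMF.uniformOfFinset_apply_of_notMem _ ha)
    (fun a _ => fs_rsa r n k _), Finset.sum_div]
  refine Finset.sum_congr rfl fun i hi => ?_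
  rw [PMF.uniformOfFinset_apply_of_mem _ hi, ENNReal.toReal_inv, ENNReal.toReal_natCast]
  ring

theorem ex_rsa_empty {r n : ℕ} {s : Finset ℕ} (h : free r n s = ∅) (f : Finset ℕ → ℝ) :
    ∀ k, ex (rsa r n k s) f = f s
  | 0 => ex_pure s f
  | k + 1 => by
    have h1 : rsa r n (k + 1) s = rsa r n k s := by
      change (step r n s).bind (rsa r n k) = _
      unfold step
      rw [dif_neg (by rw [h]; simp), PMF.pure_bind]
    rw [h1]
    exact ex_rsa_empty h f k

/-! ### The moments as functions of the set of free blocks -/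

/-- the blocks of `A` which stay free when a block is put at `i` -/
def rest (r : ℕ) (A : Finset ℕ) (i : ℕ) : Finset ℕ :=
  (A.erase i).filter (fun j => j + r ≤ i ∨ i + r ≤ j)

theorem card_rest_lt {r : ℕ} {A : Finset ℕ} {i : ℕ} (hi : i ∈ A) : (rest r A i).card < A.card :=
  lt_of_le_of_lt (Finset.card_filter_le _ _) (Finset.card_erase_lt_of_mem hi)

/-- first moment -/
noncomputable def M1 (r : ℕ) (A : Finset ℕ) : ℝ :=
  if A.Nonempty then 1 + (∑ i ∈ A.attach, M1 r (rest r A i.1)) / (A.card : ℝ) else 0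
termination_by A.card
decreasing_by exact card_rest_lt i.2

/-- second moment -/
noncomputable def M2 (r : ℕ) (A : Finset ℕ) : ℝ :=
  if A.Nonempty then
    1 + (∑ i ∈ A.attach, (2 * M1 r (rest r A i.1) + M2 r (rest r A i.1))) / (A.card : ℝ) else 0
termination_by A.card
decreasing_by exact card_rest_lt i.2

theorem M1_empty (r : ℕ) : M1 r ∅ = 0 := by
  rw [M1]; simp

theorem M2_empty (r : ℕ) : M2 r ∅ = 0 := by
  rw [M2]; simp

theorem M1_eq {r : ℕ} {A : Finset ℕ} (h : A.Nonempty) :
    M1 r A = 1 + (∑ i ∈ A, M1 r (rest r A i)) / (A.card : ℝ) := by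
  rw [M1, if_pos h, Finset.sum_attach A (fun i => M1 r (rest r A i))]

theorem M2_eq {r : ℕ} {A : Finset ℕ} (h : A.Nonempty) :
    M2 r A = 1 + (∑ i ∈ A, (2 * M1 r (rest r A i) + M2 r (rest r A i))) / (A.card : ℝ) := by
  rw [M2, if_pos h, Finset.sum_attach A (fun i => 2 * M1 r (rest r A i) + M2 r (rest r A i))]

theorem disj_iff {r i j : ℕ} (hr : 1 ≤ r) :
    Disjoint (block r i) (block r j) ↔ (i + r ≤ j ∨ j + r ≤ i) := by
  unfold block
  constructor
  · intro h
    by_contra hc
    push Not at hc
    have h1 : max i j ∈ Finset.Ico i (i + r) := by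
      rw [Finset.mem_Ico]; omega
    have h2 : max i j ∈ Finset.Ico j (j + r) := by
      rw [Finset.mem_Ico]; omega
    exact (Finset.disjoint_left.mp h) h1 h2
  · intro h
    rw [Finset.disjoint_left]
    intro a ha hb
    rw [Finset.mem_Ico] at ha hb
    omega

theorem free_insert {r n : ℕ} (hr : 1 ≤ r) {s : Finset ℕ} {i : ℕ} :
    free r n (insert i s) = rest r (free r n s) i := by
  ext j
  unfold rest free
  simp only [Finset.mem_filter, Finset.mem_erase, Finset.mem_insert, forall_eq_or_imp]
  rw [disj_iff hr]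
  constructor
  · rintro ⟨h1, h2, h3⟩
    exact ⟨⟨by omega, h1, h3⟩, h2⟩
  · rintro ⟨⟨h1, h2, h3⟩, h4⟩
    exact ⟨h2, h4, h3⟩

theorem notMem_of_free {r n : ℕ} (hr : 1 ≤ r) {s : Finset ℕ} {i : ℕ} (hi : i ∈ free r n s) :
    i ∉ s := by
  intro h
  unfold free at hi
  rw [Finset.mem_filter] at hi
  have := hi.2 i h
  rw [disj_iff hr] at this
  omega

theorem mom1 {r n : ℕ} (hr : 1 ≤ r) : ∀ (k : ℕ) (s : Finset ℕ), (free r n s).card ≤ k →
    ex (rsa r n k s) (fun t => (t.card : ℝ)) = (s.card : ℝ) + M1 r (free r n s) := by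
  intro k
  induction k with
  | zero =>
    intro s hs
    have h0 : free r n s = ∅ := Finset.card_eq_zero.mp (Nat.le_zero.mp hs)
    rw [ex_rsa_empty h0, h0, M1_empty, add_zero]
  | succ k ih =>
    intro s hs
    rcases (free r n s).eq_empty_or_nonempty with h0 | h0
    · rw [ex_rsa_empty h0, h0, M1_empty, add_zero]
    · have hc : (0 : ℝ) < ((free r n s).card : ℝ) := by exact_mod_cast Finset.card_pos.mpr h0
      rw [ex_rsa_succ h0, M1_eq h0]
      have h1 : ∀ i ∈ free r n s, ex (rsa r n k (insert i s)) (fun t => (t.card : ℝ)) =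
          ((s.card : ℝ) + 1) + M1 r (rest r (free r n s) i) := by
        intro i hi
        rw [ih (insert i s) (by
          rw [free_insert hr]
          have := card_rest_lt (r := r) hi
          omega), Finset.card_insert_of_notMem (notMem_of_free hr hi), free_insert hr]
        push_cast
        ring
      rw [Finset.sum_congr rfl h1, Finset.sum_add_distrib, Finset.sum_const, nsmul_eq_mul]
      field_simp
      ring

theorem mom2 {r n : ℕ} (hr : 1 ≤ r) : ∀ (k : ℕ) (s : Finset ℕ), (free r n s).card ≤ k →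
    ex (rsa r n k s) (fun t => (t.card : ℝ) ^ 2) =
      (s.card : ℝ) ^ 2 + 2 * (s.card : ℝ) * M1 r (free r n s) + M2 r (free r n s) := by
  intro k
  induction k with
  | zero =>
    intro s hs
    have h0 : free r n s = ∅ := Finset.card_eq_zero.mp (Nat.le_zero.mp hs)
    rw [ex_rsa_empty h0, h0, M1_empty, M2_empty]
    ring
  | succ k ih =>
    intro s hs
    rcases (free r n s).eq_empty_or_nonempty with h0 | h0
    · rw [ex_rsa_empty h0, h0, M1_empty, M2_empty]
      ring
    · have hc : (0 : ℝ) < ((free r n s).card : ℝ) := by exact_mod_cast Finset.card_pos.mpr h0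
      rw [ex_rsa_succ h0, M1_eq h0, M2_eq h0]
      have h1 : ∀ i ∈ free r n s, ex (rsa r n k (insert i s)) (fun t => (t.card : ℝ) ^ 2) =
          ((s.card : ℝ) + 1) ^ 2 + 2 * (s.card : ℝ) * M1 r (rest r (free r n s) i) +
            (2 * M1 r (rest r (free r n s) i) + M2 r (rest r (free r n s) i)) := by
        intro i hi
        rw [ih (insert i s) (by
          rw [free_insert hr]
          have := card_rest_lt (r := r) hi
          omega), Finset.card_insert_of_notMem (notMem_of_free hr hi), free_insert hr]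
        push_cast
        ring
      rw [Finset.sum_congr rfl h1, Finset.sum_add_distrib, Finset.sum_add_distrib,
        Finset.sum_const, nsmul_eq_mul, ← Finset.mul_sum]
      field_simp
      ring

/-! ### Additivity over separated sets -/

/-- `L` lies on the left of `R`, at distance at least `r` -/
def Sep (r : ℕ) (L R : Finset ℕ) : Prop := ∀ i ∈ L, ∀ j ∈ R, i + r ≤ j

theorem rest_subset {r : ℕ} {A : Finset ℕ} {i : ℕ} : rest r A i ⊆ A :=
  (Finset.filter_subset _ _).trans (Finset.erase_subset _ _)

theorem Sep.disj {r : ℕ} (hr : 1 ≤ r) {L R : Finset ℕ} (h : Sep r L R) : Disjoint L R := by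
  rw [Finset.disjoint_left]
  intro a ha hb
  have := h a ha a hb
  omega

theorem rest_union_left {r : ℕ} {L R : Finset ℕ} (hr : 1 ≤ r) (h : Sep r L R) {i : ℕ}
    (hi : i ∈ L) : rest r (L ∪ R) i = rest r L i ∪ R := by
  ext j
  unfold rest
  simp only [Finset.mem_filter, Finset.mem_erase, Finset.mem_union]
  constructor
  · rintro ⟨⟨h1, h2⟩, h3⟩
    rcases h2 with h2 | h2
    · exact Or.inl ⟨⟨h1, h2⟩, h3⟩
    · exact Or.inr h2
  · rintro (⟨⟨h1, h2⟩, h3⟩ | h2)
    · exact ⟨⟨h1, Or.inl h2⟩, h3⟩
    · have := h i hi j h2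
      exact ⟨⟨by omega, Or.inr h2⟩, Or.inr this⟩

theorem rest_union_right {r : ℕ} {L R : Finset ℕ} (hr : 1 ≤ r) (h : Sep r L R) {i : ℕ}
    (hi : i ∈ R) : rest r (L ∪ R) i = L ∪ rest r R i := by
  ext j
  unfold rest
  simp only [Finset.mem_filter, Finset.mem_erase, Finset.mem_union]
  constructor
  · rintro ⟨⟨h1, h2⟩, h3⟩
    rcases h2 with h2 | h2
    · exact Or.inl h2
    · exact Or.inr ⟨⟨h1, h2⟩, h3⟩
  · rintro (h2 | ⟨⟨h1, h2⟩, h3⟩)
    · have := h j h2 i hi
      exact ⟨⟨by omega, Or.inl h2⟩, Or.inl this⟩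
    · exact ⟨⟨h1, Or.inr h2⟩, h3⟩

theorem alg0 {a t c : ℝ} (hc : 0 < c) (h : a = 1 + t / c) : t = c * (a - 1) := by
  rw [h]; field_simp; ring

theorem alg1 {l p A B : ℝ} (hl : 0 < l) (hp : 0 < p) :
    1 + ((l * (A - 1) + l * B) + (p * A + p * (B - 1))) / (l + p) = A + B := by
  have h : l + p ≠ 0 := by positivity
  field_simp
  ring

theorem alg2 {l p A B Q S : ℝ} (hl : 0 < l) (hp : 0 < p) :
    1 + (2 * ((l * (A - 1) + l * B) + (p * A + p * (B - 1))) +
      ((l * (Q - 1) - 2 * (l * (A - 1)) + l * S + 2 * (l * (A - 1)) * B) +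
        (p * Q + (p * (S - 1) - 2 * (p * (B - 1))) + 2 * A * (p * (B - 1))))) / (l + p) =
      Q + S + 2 * A * B := by
  have h : l + p ≠ 0 := by positivity
  field_simp
  ring

theorem M_union {r : ℕ} (hr : 1 ≤ r) : ∀ (N : ℕ) (L R : Finset ℕ), L.card + R.card ≤ N →
    Sep r L R → M1 r (L ∪ R) = M1 r L + M1 r R ∧
      M2 r (L ∪ R) = M2 r L + M2 r R + 2 * M1 r L * M1 r R := by
  intro N
  induction N with
  | zero =>
    intro L R h _
    have hL : L = ∅ := Finset.card_eq_zero.mp (by omega)
    have hR : R = ∅ := Finset.card_eq_zero.mp (by omega)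
    subst hL hR
    simp [M1_empty, M2_empty]
  | succ N ih =>
    intro L R h hs
    rcases L.eq_empty_or_nonempty with hL | hL
    · subst hL
      simp [M1_empty, M2_empty]
    rcases R.eq_empty_or_nonempty with hR | hR
    · subst hR
      simp [M1_empty, M2_empty]
    have hd := hs.disj hr
    have hcL : (0 : ℝ) < (L.card : ℝ) := by exact_mod_cast Finset.card_pos.mpr hL
    have hcR : (0 : ℝ) < (R.card : ℝ) := by exact_mod_cast Finset.card_pos.mpr hR
    have e1 : ∀ i ∈ L, M1 r (rest r (L ∪ R) i) = M1 r (rest r L i) + M1 r R ∧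
        M2 r (rest r (L ∪ R) i) = M2 r (rest r L i) + M2 r R + 2 * M1 r (rest r L i) * M1 r R := by
      intro i hi
      rw [rest_union_left hr hs hi]
      have h1 := card_rest_lt (r := r) hi
      exact ih _ _ (by omega) (fun a ha b hb => hs a (rest_subset ha) b hb)
    have e2 : ∀ i ∈ R, M1 r (rest r (L ∪ R) i) = M1 r L + M1 r (rest r R i) ∧
        M2 r (rest r (L ∪ R) i) = M2 r L + M2 r (rest r R i) + 2 * M1 r L * M1 r (rest r R i) := by
      intro i hi
      rw [rest_union_right hr hs hi]
      have h1 := card_rest_lt (r := r) hi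
      exact ih _ _ (by omega) (fun a ha b hb => hs a ha b (rest_subset hb))
    have a1 := M1_eq (r := r) hL
    have a2 := M1_eq (r := r) hR
    have b1 := M2_eq (r := r) hL
    have b2 := M2_eq (r := r) hR
    set x := ∑ i ∈ L, M1 r (rest r L i) with hx
    set y := ∑ i ∈ R, M1 r (rest r R i) with hy
    have b1' : M2 r L = 1 + (2 * x + ∑ i ∈ L, M2 r (rest r L i)) / (L.card : ℝ) := by
      rw [b1, Finset.sum_add_distrib, ← Finset.mul_sum]
    have b2' : M2 r R = 1 + (2 * y + ∑ i ∈ R, M2 r (rest r R i)) / (R.card : ℝ) := by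
      rw [b2, Finset.sum_add_distrib, ← Finset.mul_sum]
    set z := ∑ i ∈ L, M2 r (rest r L i) with hz
    set w := ∑ i ∈ R, M2 r (rest r R i) with hw
    have hx' : x = (L.card : ℝ) * (M1 r L - 1) := alg0 hcL a1
    have hy' : y = (R.card : ℝ) * (M1 r R - 1) := alg0 hcR a2
    have hz' : z = (L.card : ℝ) * (M2 r L - 1) - 2 * x := by
      have := alg0 hcL b1'
      linarith
    have hw' : w = (R.card : ℝ) * (M2 r R - 1) - 2 * y := by
      have := alg0 hcR b2'
      linarith
    have hU : (L ∪ R).Nonempty := hL.mono Finset.subset_union_left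
    have hcU : ((L ∪ R).card : ℝ) = L.card + R.card := by
      rw [Finset.card_union_of_disjoint hd]; push_cast; ring
    have s1 : ∑ i ∈ L ∪ R, M1 r (rest r (L ∪ R) i) =
        (x + (L.card : ℝ) * M1 r R) + ((R.card : ℝ) * M1 r L + y) := by
      rw [Finset.sum_union hd, Finset.sum_congr rfl (fun i hi => (e1 i hi).1),
        Finset.sum_congr rfl (fun i hi => (e2 i hi).1), Finset.sum_add_distrib,
        Finset.sum_add_distrib, Finset.sum_const, Finset.sum_const, nsmul_eq_mul, nsmul_eq_mul]
    have s2 : ∑ i ∈ L ∪ R, M2 r (rest r (L ∪ R) i) =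
        (z + (L.card : ℝ) * M2 r R + 2 * x * M1 r R) +
          ((R.card : ℝ) * M2 r L + w + 2 * M1 r L * y) := by
      rw [Finset.sum_union hd, Finset.sum_congr rfl (fun i hi => (e1 i hi).2),
        Finset.sum_congr rfl (fun i hi => (e2 i hi).2)]
      simp only [Finset.sum_add_distrib, Finset.sum_const, nsmul_eq_mul]
      rw [← Finset.sum_mul, ← Finset.mul_sum, ← Finset.mul_sum]
    constructor
    · rw [M1_eq hU, s1, hcU, hx', hy']
      exact alg1 hcL hcR
    · rw [M2_eq hU, Finset.sum_add_distrib, ← Finset.mul_sum, s1, s2, hcU, hz', hw', hx', hy']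
      exact alg2 hcL hcR

/-! ### Intervals -/

theorem rest_Ico {r : ℕ} (hr : 1 ≤ r) {a N j : ℕ} (hj : j < N) :
    rest r (Finset.Ico a (a + N)) (a + j) =
      Finset.Ico a (a + (j + 1 - r)) ∪ Finset.Ico (a + (j + r)) (a + (j + r) + (N - (j + r))) := by
  ext i
  unfold rest
  simp only [Finset.mem_filter, Finset.mem_erase, Finset.mem_union, Finset.mem_Ico]
  omega

theorem sep_Ico {r : ℕ} {a N j : ℕ} :
    Sep r (Finset.Ico a (a + (j + 1 - r)))
      (Finset.Ico (a + (j + r)) (a + (j + r) + (N - (j + r)))) := by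
  intro i hi k hk
  rw [Finset.mem_Ico] at hi hk
  omega

theorem sum_Ico_add (f : ℕ → ℝ) (a N : ℕ) :
    ∑ i ∈ Finset.Ico a (a + N), f i = ∑ j ∈ Finset.range N, f (a + j) := by
  rw [Finset.sum_Ico_eq_sum_range]
  rw [show a + N - a = N by omega]

theorem M_shift {r : ℕ} (hr : 1 ≤ r) : ∀ (N a : ℕ),
    M1 r (Finset.Ico a (a + N)) = M1 r (Finset.range N) ∧
      M2 r (Finset.Ico a (a + N)) = M2 r (Finset.range N) := by
  intro N
  induction N using Nat.strong_induction_on with
  | _ N ih =>
    intro a
    rcases Nat.eq_zero_or_pos N with h0 | h0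
    · subst h0
      simp [M1_empty, M2_empty]
    have hne : (Finset.Ico a (a + N)).Nonempty := by rw [Finset.nonempty_Ico]; omega
    have hne' : (Finset.range N).Nonempty := by rw [Finset.nonempty_range_iff]; omega
    have key : ∀ a j, j < N → M1 r (rest r (Finset.Ico a (a + N)) (a + j)) =
        M1 r (Finset.range (j + 1 - r)) + M1 r (Finset.range (N - (j + r))) ∧
        M2 r (rest r (Finset.Ico a (a + N)) (a + j)) =
          M2 r (Finset.range (j + 1 - r)) + M2 r (Finset.range (N - (j + r))) +
          2 * M1 r (Finset.range (j + 1 - r)) * M1 r (Finset.range (N - (j + r))) := by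
      intro a j hj
      rw [rest_Ico hr hj]
      have h1 := M_union hr _ _ _ le_rfl (sep_Ico (r := r) (a := a) (N := N) (j := j))
      rw [(ih (j + 1 - r) (by omega) a).1, (ih (j + 1 - r) (by omega) a).2,
        (ih (N - (j + r)) (by omega) _).1, (ih (N - (j + r)) (by omega) _).2] at h1
      exact h1
    have key0 : ∀ j, j < N → M1 r (rest r (Finset.range N) j) =
        M1 r (Finset.range (j + 1 - r)) + M1 r (Finset.range (N - (j + r))) ∧
        M2 r (rest r (Finset.range N) j) =
          M2 r (Finset.range (j + 1 - r)) + M2 r (Finset.range (N - (j + r))) +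
          2 * M1 r (Finset.range (j + 1 - r)) * M1 r (Finset.range (N - (j + r))) := by
      intro j hj
      have := key 0 j hj
      rw [zero_add, zero_add, ← Finset.range_eq_Ico] at this
      exact this
    constructor
    · rw [M1_eq hne, M1_eq hne', sum_Ico_add, Nat.card_Ico, Finset.card_range,
        show a + N - a = N by omega]
      congr 2
      refine Finset.sum_congr rfl fun j hj => ?_
      rw [(key a j (Finset.mem_range.mp hj)).1, (key0 j (Finset.mem_range.mp hj)).1]
    · rw [M2_eq hne, M2_eq hne', sum_Ico_add, Nat.card_Ico, Finset.card_range,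
        show a + N - a = N by omega]
      congr 2
      refine Finset.sum_congr rfl fun j hj => ?_
      rw [(key a j (Finset.mem_range.mp hj)).1, (key0 j (Finset.mem_range.mp hj)).1,
        (key a j (Finset.mem_range.mp hj)).2, (key0 j (Finset.mem_range.mp hj)).2]

/-- mean of the number of `r`-mers on `n` sites -/
noncomputable def mm (r n : ℕ) : ℝ := M1 r (Finset.range (n + 1 - r))

/-- second moment of the number of `r`-mers on `n` sites -/
noncomputable def qq (r n : ℕ) : ℝ := M2 r (Finset.range (n + 1 - r))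

theorem mm_small {r n : ℕ} (h : n < r) : mm r n = 0 := by
  unfold mm
  rw [show n + 1 - r = 0 by omega, Finset.range_zero, M1_empty]

theorem qq_small {r n : ℕ} (h : n < r) : qq r n = 0 := by
  unfold qq
  rw [show n + 1 - r = 0 by omega, Finset.range_zero, M2_empty]

theorem rest_range {r : ℕ} (hr : 1 ≤ r) {k j : ℕ} (hj : j ∈ Finset.range (k + 1)) :
    M1 r (rest r (Finset.range (k + 1)) j) = mm r j + mm r (k - j) ∧
      M2 r (rest r (Finset.range (k + 1)) j) =
        qq r j + qq r (k - j) + 2 * mm r j * mm r (k - j) := by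
  rw [Finset.mem_range] at hj
  have e0 := rest_Ico hr (a := 0) hj
  rw [zero_add, zero_add, ← Finset.range_eq_Ico] at e0
  rw [e0]
  have h1 := M_union hr _ _ _ le_rfl (sep_Ico (r := r) (a := 0) (N := k + 1) (j := j))
  rw [(M_shift hr (j + 1 - r) 0).1, (M_shift hr (j + 1 - r) 0).2,
    (M_shift hr (k + 1 - (j + r)) _).1, (M_shift hr (k + 1 - (j + r)) _).2] at h1
  simp only [zero_add] at h1 ⊢
  unfold mm qq
  rw [show k - j + 1 - r = k + 1 - (j + r) by omega]
  rw [← Finset.range_eq_Ico]
  rw [← Finset.range_eq_Ico] at h1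
  exact h1

theorem mm_rec {r : ℕ} (hr : 1 ≤ r) (k : ℕ) :
    ((k : ℝ) + 1) * mm r (k + r) = ((k : ℝ) + 1) +
      ∑ j ∈ Finset.range (k + 1), (mm r j + mm r (k - j)) := by
  have hne : (Finset.range (k + 1)).Nonempty := by rw [Finset.nonempty_range_iff]; omega
  have h1 : mm r (k + r) = M1 r (Finset.range (k + 1)) := by
    unfold mm; rw [show k + r + 1 - r = k + 1 by omega]
  rw [h1, M1_eq hne, Finset.card_range, Finset.sum_congr rfl (fun j hj => (rest_range hr hj).1)]
  push_cast
  field_simp

theorem qq_rec {r : ℕ} (hr : 1 ≤ r) (k : ℕ) :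
    ((k : ℝ) + 1) * qq r (k + r) = ((k : ℝ) + 1) +
      ∑ j ∈ Finset.range (k + 1), (2 * (mm r j + mm r (k - j)) +
        (qq r j + qq r (k - j) + 2 * mm r j * mm r (k - j))) := by
  have hne : (Finset.range (k + 1)).Nonempty := by rw [Finset.nonempty_range_iff]; omega
  have h1 : qq r (k + r) = M2 r (Finset.range (k + 1)) := by
    unfold qq; rw [show k + r + 1 - r = k + 1 by omega]
  rw [h1, M2_eq hne, Finset.card_range, Finset.sum_congr rfl (fun j hj => by
    rw [(rest_range hr hj).1, (rest_range hr hj).2])]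
  push_cast
  field_simp

/-- variance of the number of `r`-mers on `n` sites -/
noncomputable def vv (r n : ℕ) : ℝ := qq r n - mm r n ^ 2

theorem vv_small {r n : ℕ} (h : n < r) : vv r n = 0 := by
  unfold vv
  rw [mm_small h, qq_small h]; ring

theorem vv_rec {r : ℕ} (hr : 1 ≤ r) (k : ℕ) :
    ((k : ℝ) + 1) * vv r (k + r) = 2 * ∑ j ∈ Finset.range (k + 1), vv r j +
      ∑ j ∈ Finset.range (k + 1), (1 + mm r j + mm r (k - j) - mm r (k + r)) ^ 2 := by
  have hm := mm_rec hr k
  have hq := qq_rec hr k
  have hrefl : ∑ j ∈ Finset.range (k + 1), vv r (k - j) = ∑ j ∈ Finset.range (k + 1), vv r j := by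
    have := Finset.sum_range_reflect (fun j => vv r j) (k + 1)
    simpa using this
  have h2 : 2 * ∑ j ∈ Finset.range (k + 1), vv r j =
      ∑ j ∈ Finset.range (k + 1), (vv r j + vv r (k - j)) := by
    rw [Finset.sum_add_distrib, hrefl]; ring
  rw [h2]
  set μ := mm r (k + r) with hμ
  have e1 : ∑ j ∈ Finset.range (k + 1), (1 + mm r j + mm r (k - j) - μ) ^ 2 =
      ∑ j ∈ Finset.range (k + 1), ((1 - μ) ^ 2 + 2 * (1 - μ) * (mm r j + mm r (k - j)) +
        (mm r j ^ 2 + mm r (k - j) ^ 2 + 2 * mm r j * mm r (k - j))) := by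
    refine Finset.sum_congr rfl fun j _ => ?_
    ring
  rw [e1, ← Finset.sum_add_distrib]
  have e2 : ∑ j ∈ Finset.range (k + 1), (vv r j + vv r (k - j) +
      ((1 - μ) ^ 2 + 2 * (1 - μ) * (mm r j + mm r (k - j)) +
        (mm r j ^ 2 + mm r (k - j) ^ 2 + 2 * mm r j * mm r (k - j)))) =
      ∑ j ∈ Finset.range (k + 1), ((2 * (mm r j + mm r (k - j)) +
        (qq r j + qq r (k - j) + 2 * mm r j * mm r (k - j))) +
        ((1 - μ) ^ 2 + (-2 * μ) * (mm r j + mm r (k - j)))) := by
    refine Finset.sum_congr rfl fun j _ => ?_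
    unfold vv
    ring
  rw [e2, Finset.sum_add_distrib, Finset.sum_add_distrib (f := fun _ => (1 - μ) ^ 2),
    ← Finset.mul_sum, Finset.sum_const, Finset.card_range, nsmul_eq_mul]
  unfold vv
  rw [← hμ]
  push_cast
  linear_combination hq + (-2 * μ) * hm

/-! ### The law of the jammed count -/

theorem free_empty {r n : ℕ} : free r n ∅ = Finset.Ico 1 (1 + (n + 1 - r)) := by
  ext i
  unfold free
  simp only [Finset.mem_filter, Finset.mem_Icc, Finset.mem_Ico, Finset.notMem_empty,
    IsEmpty.forall_iff, implies_true, and_true]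
  omega

theorem fs_countLaw (r n : ℕ) : (countLaw r n).support.Finite := by
  unfold countLaw
  rw [PMF.support_map]
  exact (fs_rsa r n n ∅).image _

theorem ex_countLaw (r n : ℕ) (f : ℕ → ℝ) :
    ex (countLaw r n) f = ex (rsa r n n ∅) (fun t => f t.card) := by
  have h1 : countLaw r n = (rsa r n n ∅).bind (fun t => PMF.pure t.card) := rfl
  rw [h1, ex_bind (fs_rsa r n n ∅).toFinset (fun a ha => by
    rw [Set.Finite.mem_toFinset, PMF.mem_support_iff, not_not] at ha; exact ha)
    (fun a _ => fs_pure _)]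
  unfold ex
  rw [tsum_eq_sum (s := (fs_rsa r n n ∅).toFinset)]
  · refine Finset.sum_congr rfl fun a _ => ?_
    have := ex_pure a.card f
    unfold ex at this
    rw [this]
  · intro a ha
    rw [Set.Finite.mem_toFinset, PMF.mem_support_iff, not_not] at ha
    rw [ha]; simp

theorem integral_countLaw (r n : ℕ) (f : ℕ → ℝ) :
    ∫ c, f c ∂(countLaw r n).toMeasure = ex (countLaw r n) f := by
  have hint : MeasureTheory.Integrable f (countLaw r n).toMeasure := by
    have h1 : (countLaw r n).toMeasure = (countLaw r n).toMeasure.restrict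
        ((fs_countLaw r n).toFinset : Set ℕ) := by
      rw [MeasureTheory.Measure.restrict_eq_self_of_ae_mem]
      rw [MeasureTheory.ae_iff]
      have : {a | a ∉ ((fs_countLaw r n).toFinset : Set ℕ)} = (countLaw r n).supportᶜ := by
        ext a; simp
      rw [this]
      rw [PMF.toMeasure_apply_eq_zero_iff _ (MeasurableSet.of_discrete)]
      exact disjoint_compl_right
    rw [h1]
    exact MeasureTheory.IntegrableOn.finset
  rw [PMF.integral_eq_tsum _ _ hint]
  rfl

theorem mean_countLaw {r : ℕ} (hr : 1 ≤ r) (n : ℕ) : ex (countLaw r n) (fun c => (c : ℝ)) = mm r n := by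
  rw [ex_countLaw, mom1 hr n ∅, free_empty, (M_shift hr _ _).1]
  · simp [mm]
  · rw [free_empty, Nat.card_Ico]; omega

theorem sq_countLaw {r : ℕ} (hr : 1 ≤ r) (n : ℕ) :
    ex (countLaw r n) (fun c => (c : ℝ) ^ 2) = qq r n := by
  rw [ex_countLaw, mom2 hr n ∅, free_empty, (M_shift hr _ _).2]
  · simp [qq]
  · rw [free_empty, Nat.card_Ico]; omega

theorem var_countLaw {r : ℕ} (hr : 1 ≤ r) (n : ℕ) :
    ProbabilityTheory.variance (fun c : ℕ => (c : ℝ)) (countLaw r n).toMeasure = vv r n := by
  rw [ProbabilityTheory.variance_eq_integral (by fun_prop)]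
  rw [integral_countLaw r n (fun c => (c : ℝ)), mean_countLaw hr,
    integral_countLaw r n (fun c => ((c : ℝ) - mm r n) ^ 2)]
  have hs := fs_countLaw r n
  have e : ex (countLaw r n) (fun c => ((c : ℝ) - mm r n) ^ 2) =
      ex (countLaw r n) (fun c => (c : ℝ) ^ 2) -
        2 * mm r n * ex (countLaw r n) (fun c => (c : ℝ)) +
        mm r n ^ 2 * ex (countLaw r n) (fun _ => 1) := by
    unfold ex
    rw [← tsum_mul_left, ← tsum_mul_left, ← Summable.tsum_sub (summable_ex hs _)
      ((summable_ex hs _).mul_left _), ← Summable.tsum_add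
      ((summable_ex hs _).sub ((summable_ex hs _).mul_left _)) ((summable_ex hs _).mul_left _)]
    refine tsum_congr fun c => ?_
    ring
  have e1 : ex (countLaw r n) (fun _ => 1) = 1 := by
    unfold ex
    simp only [mul_one]
    rw [← ENNReal.tsum_toReal_eq (fun a => PMF.apply_ne_top _ a), PMF.tsum_coe]
    simp
  rw [e, e1, mean_countLaw hr, sq_countLaw hr]
  unfold vv
  ring

end Pool.Agent.Q216.RSA
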